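import Pool.Agent.Lib.MP_488b8a_co_N.EngD

/-! # MP_488b8a, nine caps: faces of the type `4^4 5^4 6`. -/

set_option autoImplicit false
set_option maxRecDepth 100000

namespace Pool.Agent.C9

open Real
open Pool.Agent.C32 (ph)

private theorem T2a_chk : full ⟨192, 245, -199, true⟩ ⟨82, 0, 0, true⟩
    ⟨128, 2, 129, true⟩ 374156 30373864949783785383832958852641516031601148491202560 = true := by
  decide +kernel

/-- prices (119, 73, 9), edge functions (k1, k2) ((245, -199), (0, 0), (2, 129)) -/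
theorem T2a {c a b d x z : ℝ} (hc : 87 / 125 ≤ c) (hc1 : c ≤ 1) (ha : 0 ≤ a) (hb : 0 ≤ b)
    (hd : 0 ≤ d) (hs : a + b + d = π)
    (hx : x = (1 - c ^ 2) * sin a ^ 2)
    (hz : z = (1 - c ^ 2) * sin d ^ 2) :
    192 / 100 * ph c a + 82 / 100 * ph c b + 128 / 100 * ph c d
      + 245 / 100 * x - 199 / 100 * x ^ 2
      + 2 / 100 * z + 129 / 100 * z ^ 2 ≤ 374156 / 100000 := by
  have h := eng _ _ _ _ _ T2a_chk hc hc1 ha hb hd hs
  norm_num [eR] at h
  subst hx hz
  linarith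

private theorem T2b_chk : full ⟨238, 289, -280, true⟩ ⟨128, -2, -129, false⟩
    ⟨128, -2, -129, false⟩ 375926 30375527471129218300949452399612768777309306337048320 = true := by
  decide +kernel

/-- prices (119, 119, 9), edge functions (k1, k2) ((289, -280), (-2, -129), (-2, -129)) -/
theorem T2b {c a b d x y z : ℝ} (hc : 87 / 125 ≤ c) (hc1 : c ≤ 1) (ha : 0 ≤ a) (hb : 0 ≤ b)
    (hd : 0 ≤ d) (hs : a + b + d = π)
    (hx : x = (1 - c ^ 2) * sin a ^ 2)
    (hy : y = (1 - c ^ 2) * sin b ^ 2)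
    (hz : z = (1 - c ^ 2) * sin d ^ 2) :
    238 / 100 * ph c a + 128 / 100 * ph c b + 128 / 100 * ph c d
      + 289 / 100 * x - 280 / 100 * x ^ 2
      - 2 / 100 * y - 129 / 100 * y ^ 2
      - 2 / 100 * z - 129 / 100 * z ^ 2 ≤ 375926 / 100000 := by
  have h := eng _ _ _ _ _ T2b_chk hc hc1 ha hb hd hs
  norm_num [eR] at h
  subst hx hy hz
  linarith

private theorem T2c_chk : full ⟨238, -289, 280, false⟩ ⟨233, -55, 3, false⟩
    ⟨233, -55, 3, false⟩ 378124 30377716633737589409694716403438172650012245600000000 = true := by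
  decide +kernel

/-- prices (119, 119, 114), edge functions (k1, k2) ((-289, 280), (-55, 3), (-55, 3)) -/
theorem T2c {c a b d x y z : ℝ} (hc : 87 / 125 ≤ c) (hc1 : c ≤ 1) (ha : 0 ≤ a) (hb : 0 ≤ b)
    (hd : 0 ≤ d) (hs : a + b + d = π)
    (hx : x = (1 - c ^ 2) * sin a ^ 2)
    (hy : y = (1 - c ^ 2) * sin b ^ 2)
    (hz : z = (1 - c ^ 2) * sin d ^ 2) :
    238 / 100 * ph c a + 233 / 100 * ph c b + 233 / 100 * ph c d
      - 289 / 100 * x + 280 / 100 * x ^ 2
      - 55 / 100 * y + 3 / 100 * y ^ 2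
      - 55 / 100 * z + 3 / 100 * z ^ 2 ≤ 378124 / 100000 := by
  have h := eng _ _ _ _ _ T2c_chk hc hc1 ha hb hd hs
  norm_num [eR] at h
  subst hx hy hz
  linarith

private theorem T2d_chk : full ⟨233, 55, -3, true⟩ ⟨187, 0, -58, false⟩
    ⟨192, -245, 199, false⟩ 374314 30373971270079091296302273106178551253295778657120000 = true := by
  decide +kernel

/-- prices (119, 114, 73), edge functions (k1, k2) ((55, -3), (0, -58), (-245, 199)) -/
theorem T2d {c a b d x y z : ℝ} (hc : 87 / 125 ≤ c) (hc1 : c ≤ 1) (ha : 0 ≤ a) (hb : 0 ≤ b)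
    (hd : 0 ≤ d) (hs : a + b + d = π)
    (hx : x = (1 - c ^ 2) * sin a ^ 2)
    (hy : y = (1 - c ^ 2) * sin b ^ 2)
    (hz : z = (1 - c ^ 2) * sin d ^ 2) :
    233 / 100 * ph c a + 187 / 100 * ph c b + 192 / 100 * ph c d
      + 55 / 100 * x - 3 / 100 * x ^ 2
      - 58 / 100 * y ^ 2
      - 245 / 100 * z + 199 / 100 * z ^ 2 ≤ 374314 / 100000 := by
  have h := eng _ _ _ _ _ T2d_chk hc hc1 ha hb hd hs
  norm_num [eR] at h
  subst hx hy hz
  linarith

private theorem T2e_chk : full ⟨228, 0, 0, true⟩ ⟨187, 0, 58, true⟩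
    ⟨187, 0, 58, true⟩ 442954 30442753051115776824480428976933529938986486455074816 = true := by
  decide +kernel

/-- prices (114, 114, 73), edge functions (k1, k2) ((0, 0), (0, 58), (0, 58)) -/
theorem T2e {c a b d y z : ℝ} (hc : 87 / 125 ≤ c) (hc1 : c ≤ 1) (ha : 0 ≤ a) (hb : 0 ≤ b)
    (hd : 0 ≤ d) (hs : a + b + d = π)
    (hy : y = (1 - c ^ 2) * sin b ^ 2)
    (hz : z = (1 - c ^ 2) * sin d ^ 2) :
    228 / 100 * ph c a + 187 / 100 * ph c b + 187 / 100 * ph c d
      + 58 / 100 * y ^ 2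
      + 58 / 100 * z ^ 2 ≤ 442954 / 100000 := by
  have h := eng _ _ _ _ _ T2e_chk hc hc1 ha hb hd hs
  norm_num [eR] at h
  subst hy hz
  linarith

end Pool.Agent.C9
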