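import Pool.Agent.Lib.MP_488b8a_co_N.EngD

/-! # MP_488b8a, nine caps: faces of the type `4^5 5^2 6^2`. -/

set_option autoImplicit false
set_option maxRecDepth 100000

namespace Pool.Agent.C9

open Real
open Pool.Agent.C32 (ph)

private theorem T3a_chk : full ⟨218, 89, 0, true⟩ ⟨135, 0, 0, true⟩
    ⟨177, 0, 0, true⟩ 408581 30408409350000000000000000000000000000000000000000000 = true := by
  decide +kernel

/-- prices (130, 88, 47), edge functions (k1, k2) ((89, 0), (0, 0), (0, 0)) -/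
theorem T3a {c a b d x : ℝ} (hc : 87 / 125 ≤ c) (hc1 : c ≤ 1) (ha : 0 ≤ a) (hb : 0 ≤ b)
    (hd : 0 ≤ d) (hs : a + b + d = π)
    (hx : x = (1 - c ^ 2) * sin a ^ 2) :
    218 / 100 * ph c a + 135 / 100 * ph c b + 177 / 100 * ph c d
      + 89 / 100 * x ≤ 408581 / 100000 := by
  have h := eng _ _ _ _ _ T3a_chk hc hc1 ha hb hd hs
  norm_num [eR] at h
  subst hx
  linarith

private theorem T3b_chk : full ⟨260, 0, 0, true⟩ ⟨218, -89, 0, false⟩
    ⟨218, -89, 0, false⟩ 414152 30413907464805190297630500000000000000000000000000000 = true := by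
  decide +kernel

/-- prices (130, 130, 88), edge functions (k1, k2) ((0, 0), (-89, 0), (-89, 0)) -/
theorem T3b {c a b d y z : ℝ} (hc : 87 / 125 ≤ c) (hc1 : c ≤ 1) (ha : 0 ≤ a) (hb : 0 ≤ b)
    (hd : 0 ≤ d) (hs : a + b + d = π)
    (hy : y = (1 - c ^ 2) * sin b ^ 2)
    (hz : z = (1 - c ^ 2) * sin d ^ 2) :
    260 / 100 * ph c a + 218 / 100 * ph c b + 218 / 100 * ph c d
      - 89 / 100 * y
      - 89 / 100 * z ≤ 414152 / 100000 := by
  have h := eng _ _ _ _ _ T3b_chk hc hc1 ha hb hd hs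
  norm_num [eR] at h
  subst hy hz
  linarith

private theorem T3c_chk : full ⟨209, 0, 0, true⟩ ⟨168, 47, 0, true⟩
    ⟨135, 0, 0, true⟩ 386702 30386547755173425860586211328000000000000000000000000 = true := by
  decide +kernel

/-- prices (88, 121, 47), edge functions (k1, k2) ((0, 0), (47, 0), (0, 0)) -/
theorem T3c {c a b d y : ℝ} (hc : 87 / 125 ≤ c) (hc1 : c ≤ 1) (ha : 0 ≤ a) (hb : 0 ≤ b)
    (hd : 0 ≤ d) (hs : a + b + d = π)
    (hy : y = (1 - c ^ 2) * sin b ^ 2) :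
    209 / 100 * ph c a + 168 / 100 * ph c b + 135 / 100 * ph c d
      + 47 / 100 * y ≤ 386702 / 100000 := by
  have h := eng _ _ _ _ _ T3c_chk hc hc1 ha hb hd hs
  norm_num [eR] at h
  subst hy
  linarith

private theorem T3d_chk : full ⟨249, 0, 0, true⟩ ⟨175, 0, 0, true⟩
    ⟨168, -47, 0, false⟩ 404005 30403829415294415304334830000000000000000000000000000 = true := by
  decide +kernel

/-- prices (121, 128, 47), edge functions (k1, k2) ((0, 0), (0, 0), (-47, 0)) -/
theorem T3d {c a b d z : ℝ} (hc : 87 / 125 ≤ c) (hc1 : c ≤ 1) (ha : 0 ≤ a) (hb : 0 ≤ b)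
    (hd : 0 ≤ d) (hs : a + b + d = π)
    (hz : z = (1 - c ^ 2) * sin d ^ 2) :
    249 / 100 * ph c a + 175 / 100 * ph c b + 168 / 100 * ph c d
      - 47 / 100 * z ≤ 404005 / 100000 := by
  have h := eng _ _ _ _ _ T3d_chk hc hc1 ha hb hd hs
  norm_num [eR] at h
  subst hz
  linarith

end Pool.Agent.C9
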