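import Pool.Agent.Lib.MP_488b8a_co_N.EngD

/-! # MP_488b8a, nine caps: faces of the types `4^6 6^3` and `4^7 7^2`. -/

set_option autoImplicit false
set_option maxRecDepth 100000

namespace Pool.Agent.C9

open Real
open Pool.Agent.C32 (ph)

private theorem T4a_chk : full ⟨200, 0, 0, true⟩ ⟨200, 0, 0, true⟩
    ⟨200, 0, 0, true⟩ 415525 30415362000000000000000000000000000000000000000000000 = true := by
  decide +kernel

/-- prices (100, 100, 100), edge functions (k1, k2) ((0, 0), (0, 0), (0, 0)) -/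
theorem T4a {c a b d : ℝ} (hc : 87 / 125 ≤ c) (hc1 : c ≤ 1) (ha : 0 ≤ a) (hb : 0 ≤ b)
    (hd : 0 ≤ d) (hs : a + b + d = π) :
    200 / 100 * ph c a + 200 / 100 * ph c b + 200 / 100 * ph c d ≤ 415525 / 100000 := by
  have h := eng _ _ _ _ _ T4a_chk hc hc1 ha hb hd hs
  norm_num [eR] at h
  linarith

private theorem T4b_chk : full ⟨200, 0, 0, true⟩ ⟨162, 0, 0, true⟩
    ⟨162, 0, 0, true⟩ 367013 30366869880000000000000000000000000000000000000000000 = true := by
  decide +kernel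

/-- prices (100, 100, 62), edge functions (k1, k2) ((0, 0), (0, 0), (0, 0)) -/
theorem T4b {c a b d : ℝ} (hc : 87 / 125 ≤ c) (hc1 : c ≤ 1) (ha : 0 ≤ a) (hb : 0 ≤ b)
    (hd : 0 ≤ d) (hs : a + b + d = π) :
    200 / 100 * ph c a + 162 / 100 * ph c b + 162 / 100 * ph c d ≤ 367013 / 100000 := by
  have h := eng _ _ _ _ _ T4b_chk hc hc1 ha hb hd hs
  norm_num [eR] at h
  linarith

private theorem T4c_chk : full ⟨162, 0, 0, true⟩ ⟨124, 0, 0, true⟩
    ⟨162, 0, 0, true⟩ 315861 30315738620000000000000000000000000000000000000000000 = true := by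
  decide +kernel

/-- prices (100, 62, 62), edge functions (k1, k2) ((0, 0), (0, 0), (0, 0)) -/
theorem T4c {c a b d : ℝ} (hc : 87 / 125 ≤ c) (hc1 : c ≤ 1) (ha : 0 ≤ a) (hb : 0 ≤ b)
    (hd : 0 ≤ d) (hs : a + b + d = π) :
    162 / 100 * ph c a + 124 / 100 * ph c b + 162 / 100 * ph c d ≤ 315861 / 100000 := by
  have h := eng _ _ _ _ _ T4c_chk hc hc1 ha hb hd hs
  norm_num [eR] at h
  linarith

private theorem T5a_chk : full ⟨200, 0, 0, true⟩ ⟨130, 0, 0, true⟩
    ⟨130, 0, 0, true⟩ 334148 30334022400000000000000000000000000000000000000000000 = true := by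
  decide +kernel

/-- prices (100, 100, 30), edge functions (k1, k2) ((0, 0), (0, 0), (0, 0)) -/
theorem T5a {c a b d : ℝ} (hc : 87 / 125 ≤ c) (hc1 : c ≤ 1) (ha : 0 ≤ a) (hb : 0 ≤ b)
    (hd : 0 ≤ d) (hs : a + b + d = π) :
    200 / 100 * ph c a + 130 / 100 * ph c b + 130 / 100 * ph c d ≤ 334148 / 100000 := by
  have h := eng _ _ _ _ _ T5a_chk hc hc1 ha hb hd hs
  norm_num [eR] at h
  linarith

end Pool.Agent.C9
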