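import Pool.Agent.Lib.MP_488b8a_co_N.EngD

/-! # MP_488b8a, nine caps: faces after the deletion of a vertex of degree 3 (prices 1.18, 0.82). -/

set_option autoImplicit false
set_option maxRecDepth 100000

namespace Pool.Agent.C9

open Real
open Pool.Agent.C32 (ph)

private theorem D3a_chk : full ⟨236, 0, 0, true⟩ ⟨236, 0, 0, true⟩
    ⟨236, 0, 0, true⟩ 490320 30490127160000000000000000000000000000000000000000000 = true := by
  decide +kernel

/-- prices (118, 118, 118), edge functions (k1, k2) ((0, 0), (0, 0), (0, 0)) -/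
theorem D3a {c a b d : ℝ} (hc : 87 / 125 ≤ c) (hc1 : c ≤ 1) (ha : 0 ≤ a) (hb : 0 ≤ b)
    (hd : 0 ≤ d) (hs : a + b + d = π) :
    236 / 100 * ph c a + 236 / 100 * ph c b + 236 / 100 * ph c d ≤ 490320 / 100000 := by
  have h := eng _ _ _ _ _ D3a_chk hc hc1 ha hb hd hs
  norm_num [eR] at h
  linarith

private theorem D3b_chk : full ⟨236, 0, 0, true⟩ ⟨200, 0, 0, true⟩
    ⟨200, 0, 0, true⟩ 443632 30443459120000000000000000000000000000000000000000000 = true := by
  decide +kernel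

/-- prices (118, 118, 82), edge functions (k1, k2) ((0, 0), (0, 0), (0, 0)) -/
theorem D3b {c a b d : ℝ} (hc : 87 / 125 ≤ c) (hc1 : c ≤ 1) (ha : 0 ≤ a) (hb : 0 ≤ b)
    (hd : 0 ≤ d) (hs : a + b + d = π) :
    236 / 100 * ph c a + 200 / 100 * ph c b + 200 / 100 * ph c d ≤ 443632 / 100000 := by
  have h := eng _ _ _ _ _ D3b_chk hc hc1 ha hb hd hs
  norm_num [eR] at h
  linarith

private theorem D3c_chk : full ⟨200, 0, 0, true⟩ ⟨164, 0, 0, true⟩
    ⟨200, 0, 0, true⟩ 394463 30394309040000000000000000000000000000000000000000000 = true := by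
  decide +kernel

/-- prices (118, 82, 82), edge functions (k1, k2) ((0, 0), (0, 0), (0, 0)) -/
theorem D3c {c a b d : ℝ} (hc : 87 / 125 ≤ c) (hc1 : c ≤ 1) (ha : 0 ≤ a) (hb : 0 ≤ b)
    (hd : 0 ≤ d) (hs : a + b + d = π) :
    200 / 100 * ph c a + 164 / 100 * ph c b + 200 / 100 * ph c d ≤ 394463 / 100000 := by
  have h := eng _ _ _ _ _ D3c_chk hc hc1 ha hb hd hs
  norm_num [eR] at h
  linarith

private theorem D3d_chk : full ⟨164, 0, 0, true⟩ ⟨164, 0, 0, true⟩
    ⟨164, 0, 0, true⟩ 340731 30340596840000000000000000000000000000000000000000000 = true := by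
  decide +kernel

/-- prices (82, 82, 82), edge functions (k1, k2) ((0, 0), (0, 0), (0, 0)) -/
theorem D3d {c a b d : ℝ} (hc : 87 / 125 ≤ c) (hc1 : c ≤ 1) (ha : 0 ≤ a) (hb : 0 ≤ b)
    (hd : 0 ≤ d) (hs : a + b + d = π) :
    164 / 100 * ph c a + 164 / 100 * ph c b + 164 / 100 * ph c d ≤ 340731 / 100000 := by
  have h := eng _ _ _ _ _ D3d_chk hc hc1 ha hb hd hs
  norm_num [eR] at h
  linarith

end Pool.Agent.C9
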