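import Pool.Agent.Lib.MP_488b8a_co_W.Conc

/-! # MP_488b8a, nine caps: numerical engine, part A. Convexity up to a quadratic term. -/

set_option autoImplicit false

namespace Pool.Agent.C9

open Real Set
open Pool.Agent.C32 (ph dph ph_cont1 ph_deriv)

private theorem den_pos {c : ℝ} (hc : 0 < c) (z : ℝ) : 0 < cos z ^ 2 + c ^ 2 * sin z ^ 2 := by
  have h7 := sin_sq_add_cos_sq z
  rcases eq_or_ne (sin z) 0 with h | h
  · rw [h] at h7 ⊢
    nlinarith
  · have h2 : 0 < sin z ^ 2 := by positivity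
    have h3 : 0 < c ^ 2 * sin z ^ 2 := by positivity
    have h4 := sq_nonneg (cos z)
    linarith

/-- the polynomial inequality behind the bound of the second derivative of `ph` -/
private theorem poly_ineq {σ t : ℝ} (h0 : 0 ≤ t) (h1 : t ≤ σ) (h2 : σ ≤ 645 / 1250) :
    4 * (1 - σ) * (σ - t) * t ≤ 81 / 100 * (1 - t) ^ 4 := by
  by_cases h : t ≤ 1 / 3
  · have h3 : 4 * ((1 - σ) * (σ - t)) ≤ (1 - t) ^ 2 := by nlinarith [sq_nonneg (1 - 2 * σ + t)]
    have h4 : t ≤ 81 / 100 * (1 - t) ^ 2 := by nlinarith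
    calc 4 * (1 - σ) * (σ - t) * t = 4 * ((1 - σ) * (σ - t)) * t := by ring
      _ ≤ (1 - t) ^ 2 * t := mul_le_mul_of_nonneg_right h3 h0
      _ ≤ (1 - t) ^ 2 * (81 / 100 * (1 - t) ^ 2) :=
          mul_le_mul_of_nonneg_left h4 (sq_nonneg _)
      _ = 81 / 100 * (1 - t) ^ 4 := by ring
  · push Not at h
    have h3 : (1 - σ) * (σ - t) ≤ (1 - 645 / 1250) * (645 / 1250 - t) := by
      nlinarith
    have h4 : 4 * ((1 - 645 / 1250) * (645 / 1250 - t)) * t ≤ 81 / 100 * (1 - t) ^ 4 := by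
      have h5 : t ≤ 645 / 1250 := by linarith
      nlinarith [mul_nonneg (sub_nonneg.2 h.le) (sub_nonneg.2 h5), sq_nonneg (t - 2 / 5),
        sq_nonneg ((1 - t) ^ 2 - 9 / 25), sq_nonneg (1 - t)]
    calc 4 * (1 - σ) * (σ - t) * t = 4 * ((1 - σ) * (σ - t)) * t := by ring
      _ ≤ 4 * ((1 - 645 / 1250) * (645 / 1250 - t)) * t := by
          apply mul_le_mul_of_nonneg_right _ h0
          linarith
      _ ≤ _ := h4

private theorem abs_ddph {c z : ℝ} (hc : 87 / 125 ≤ c) (hc1 : c ≤ 1) :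
    |2 * c * (1 - c ^ 2) * sin z * cos z / (cos z ^ 2 + c ^ 2 * sin z ^ 2) ^ 2| ≤ 9 / 10 := by
  have hD := den_pos (c := c) (by linarith) z
  have h7 := sin_sq_add_cos_sq z
  have hDe : cos z ^ 2 + c ^ 2 * sin z ^ 2 = 1 - (1 - c ^ 2) * sin z ^ 2 := by linarith
  rw [abs_div, abs_of_pos (pow_pos hD 2), div_le_iff₀ (pow_pos hD 2)]
  apply abs_le_of_sq_le_sq _ (by positivity)
  have h8 : (1 - c ^ 2) ≤ 645 / 1250 := by nlinarith
  have h9 : 0 ≤ 1 - c ^ 2 := by nlinarith
  have hs : sin z ^ 2 ≤ 1 := by nlinarith [sq_nonneg (cos z)]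
  have h10 := poly_ineq (σ := 1 - c ^ 2) (t := (1 - c ^ 2) * sin z ^ 2)
    (mul_nonneg h9 (sq_nonneg _)) (by nlinarith) h8
  have h11 : (2 * c * (1 - c ^ 2) * sin z * cos z) ^ 2 =
      4 * (1 - (1 - c ^ 2)) * ((1 - c ^ 2) - (1 - c ^ 2) * sin z ^ 2) *
        ((1 - c ^ 2) * sin z ^ 2) := by
    have : cos z ^ 2 = 1 - sin z ^ 2 := by linarith
    calc (2 * c * (1 - c ^ 2) * sin z * cos z) ^ 2
        = 4 * c ^ 2 * (1 - c ^ 2) ^ 2 * sin z ^ 2 * cos z ^ 2 := by ring
      _ = _ := by rw [this]; ring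
  rw [h11, hDe]
  calc _ ≤ _ := h10
    _ = (9 / 10 * (1 - (1 - c ^ 2) * sin z ^ 2) ^ 2) ^ 2 := by ring

private theorem dph_deriv {c : ℝ} (hc : 0 < c) (z : ℝ) :
    HasDerivAt (dph c)
      (2 * c * (1 - c ^ 2) * sin z * cos z / (cos z ^ 2 + c ^ 2 * sin z ^ 2) ^ 2) z := by
  have hD := den_pos hc z
  have h1 : HasDerivAt (fun z => cos z ^ 2 + c ^ 2 * sin z ^ 2)
      (2 * cos z * (-sin z) + c ^ 2 * (2 * sin z * cos z)) z := by
    have h2 := (hasDerivAt_cos z).pow 2
    have h3 := ((hasDerivAt_sin z).pow 2).const_mul (c ^ 2)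
    refine (h2.add h3).congr_deriv ?_
    norm_num
  have h4 := (hasDerivAt_const z c).div h1 hD.ne'
  have h5 : dph c = fun z => c / (cos z ^ 2 + c ^ 2 * sin z ^ 2) := rfl
  rw [h5]
  refine h4.congr_deriv ?_
  congr 1
  ring

/-- `± ph + (9/20) z²` is convex -/
theorem conv_ph {c s : ℝ} (hc : 87 / 125 ≤ c) (hc1 : c ≤ 1) (hs : |s| ≤ 1) :
    ConvexOn ℝ (Icc 0 π) (fun z => s * ph c z + 9 / 20 * z ^ 2) := by
  have hc0 : (0 : ℝ) < c := by linarith
  have hD : ∀ z ∈ Ioo 0 π, HasDerivAt (fun z => s * ph c z + 9 / 20 * z ^ 2)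
      (-(s * dph c z) + 9 / 10 * z) z := by
    intro z hz
    refine (((ph_deriv hc0 hz.1 hz.2).const_mul s).add
      (((hasDerivAt_id z).pow 2).const_mul (9 / 20))).congr_deriv ?_
    simp only [id, Nat.cast_ofNat]
    ring
  refine MonotoneOn.convexOn_of_deriv (convex_Icc 0 π) ?_ ?_ ?_
  · exact ((ph_cont1 hc0).const_mul s).add (by fun_prop)
  · rw [interior_Icc]
    intro z hz
    exact (hD z hz).differentiableAt.differentiableWithinAt
  · rw [interior_Icc]
    have hd : ∀ z ∈ Ioo 0 π, deriv (fun z => s * ph c z + 9 / 20 * z ^ 2) z =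
        -(s * dph c z) + 9 / 10 * z := fun z hz => (hD z hz).deriv
    have hm : MonotoneOn (fun z => -(s * dph c z) + 9 / 10 * z) (Ioo 0 π) := by
      have hh : ∀ z, HasDerivAt (fun z => -(s * dph c z) + 9 / 10 * z)
          (-(s * (2 * c * (1 - c ^ 2) * sin z * cos z /
            (cos z ^ 2 + c ^ 2 * sin z ^ 2) ^ 2)) + 9 / 10) z := by
        intro z
        refine (((dph_deriv hc0 z).const_mul s).neg.add
          ((hasDerivAt_id z).const_mul (9 / 10))).congr_deriv ?_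
        simp
      refine monotoneOn_of_deriv_nonneg (convex_Ioo 0 π)
        (fun z _ => (hh z).continuousAt.continuousWithinAt)
        (fun z _ => (hh z).differentiableAt.differentiableWithinAt) fun z _ => ?_
      rw [(hh z).deriv]
      have h1 := abs_ddph (z := z) hc hc1
      have h2 : |s * (2 * c * (1 - c ^ 2) * sin z * cos z /
          (cos z ^ 2 + c ^ 2 * sin z ^ 2) ^ 2)| ≤ 9 / 10 := by
        rw [abs_mul]
        calc |s| * _ ≤ 1 * (9 / 10) := mul_le_mul hs h1 (abs_nonneg _) zero_le_one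
          _ = 9 / 10 := one_mul _
      linarith [(abs_le.1 h2).2]
    intro x hx y hy hxy
    rw [hd x hx, hd y hy]
    exact hm hx hy hxy

private theorem conv_of_second {f f' f'' : ℝ → ℝ} (h1 : ∀ z, HasDerivAt f (f' z) z)
    (h2 : ∀ z, HasDerivAt f' (f'' z) z) (h3 : ∀ z, 0 ≤ f'' z) : ConvexOn ℝ (Icc 0 π) f := by
  have hm : Monotone f' := monotone_of_deriv_nonneg (fun z => (h2 z).differentiableAt)
    fun z => by rw [(h2 z).deriv]; exact h3 z
  refine MonotoneOn.convexOn_of_deriv (convex_Icc 0 π)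
    (fun z _ => (h1 z).continuousAt.continuousWithinAt)
    (fun z _ => (h1 z).differentiableAt.differentiableWithinAt) ?_
  intro x _ y _ hxy
  rw [(h1 x).deriv, (h1 y).deriv]
  exact hm hxy

/-- `k sin² z + |k| z²` is convex -/
theorem conv_sin2 (k : ℝ) : ConvexOn ℝ (Icc 0 π) (fun z => k * sin z ^ 2 + |k| * z ^ 2) := by
  refine conv_of_second (f' := fun z => k * (2 * sin z * cos z) + |k| * (2 * z))
    (f'' := fun z => k * (2 * (cos z * cos z - sin z * sin z)) + |k| * 2) ?_ ?_ ?_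
  · intro z
    refine ((((hasDerivAt_sin z).pow 2).const_mul k).add
      (((hasDerivAt_id z).pow 2).const_mul |k|)).congr_deriv ?_
    simp
  · intro z
    have h := ((((hasDerivAt_sin z).const_mul 2).mul (hasDerivAt_cos z)).const_mul k).add
      (((hasDerivAt_id z).const_mul 2).const_mul |k|)
    refine h.congr_deriv ?_
    ring
  · intro z
    have h7 := sin_sq_add_cos_sq z
    have h8 : |cos z * cos z - sin z * sin z| ≤ 1 := by
      rw [abs_le]
      constructor <;> nlinarith [sq_nonneg (sin z), sq_nonneg (cos z)]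
    have h9 : |k * (cos z * cos z - sin z * sin z)| ≤ |k| := by
      rw [abs_mul]
      calc |k| * _ ≤ |k| * 1 := mul_le_mul_of_nonneg_left h8 (abs_nonneg k)
        _ = |k| := mul_one _
    have h10 := (abs_le.1 h9).1
    nlinarith

/-- `k sin⁴ z + 2|k| z²` is convex -/
theorem conv_sin4 (k : ℝ) : ConvexOn ℝ (Icc 0 π) (fun z => k * sin z ^ 4 + 2 * |k| * z ^ 2) := by
  refine conv_of_second (f' := fun z => k * (4 * sin z ^ 3 * cos z) + 2 * |k| * (2 * z))
    (f'' := fun z => k * (12 * sin z ^ 2 * cos z ^ 2 - 4 * sin z ^ 4) + 2 * |k| * 2) ?_ ?_ ?_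
  · intro z
    refine ((((hasDerivAt_sin z).pow 4).const_mul k).add
      (((hasDerivAt_id z).pow 2).const_mul (2 * |k|))).congr_deriv ?_
    simp
  · intro z
    have h := (((((hasDerivAt_sin z).pow 3).const_mul 4).mul (hasDerivAt_cos z)).const_mul k).add
      (((hasDerivAt_id z).const_mul 2).const_mul (2 * |k|))
    refine h.congr_deriv ?_
    simp only [Pi.pow_apply, Nat.cast_ofNat]
    ring
  · intro z
    have h7 := sin_sq_add_cos_sq z
    have hc : cos z ^ 2 = 1 - sin z ^ 2 := by linarith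
    have hs0 : 0 ≤ sin z ^ 2 := sq_nonneg _
    have hs1 : sin z ^ 2 ≤ 1 := by nlinarith [sq_nonneg (cos z)]
    have h8 : |12 * sin z ^ 2 * cos z ^ 2 - 4 * sin z ^ 4| ≤ 4 := by
      have : sin z ^ 4 = (sin z ^ 2) ^ 2 := by ring
      rw [hc, this, abs_le]
      constructor <;> nlinarith [sq_nonneg (sin z ^ 2 - 3 / 8)]
    have h9 : |k * (12 * sin z ^ 2 * cos z ^ 2 - 4 * sin z ^ 4)| ≤ |k| * 4 := by
      rw [abs_mul]
      exact mul_le_mul_of_nonneg_left h8 (abs_nonneg k)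
    have h10 := (abs_le.1 h9).1
    linarith

end Pool.Agent.C9
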