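import Mathlib

/-! # MP_488b8a, nine caps: numerical engine, part B. Interpolation on a grid. -/

set_option autoImplicit false

namespace Pool.Agent.C9

open Set

/-- chord bound -/
private theorem chord {f : ℝ → ℝ} {K p : ℝ} (hf : ConvexOn ℝ (Icc 0 p) (fun z => f z + K * z ^ 2))
    {a b s : ℝ} (ha : 0 ≤ a) (hab : a ≤ b) (hb : b ≤ p) (hs : 0 ≤ s) (hs1 : s ≤ 1) :
    f ((1 - s) * a + s * b) ≤ (1 - s) * f a + s * f b + K * (s * (1 - s) * (b - a) ^ 2) := by
  have h := hf.2 (x := a) (y := b) ⟨ha, hab.trans hb⟩ ⟨ha.trans hab, hb⟩ (sub_nonneg.2 hs1) hs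
    (by ring)
  simp only [smul_eq_mul] at h
  nlinarith [h]

private theorem chord' {f : ℝ → ℝ} {K p d : ℝ} (hK : 0 ≤ K)
    (hf : ConvexOn ℝ (Icc 0 p) (fun z => f z + K * z ^ 2))
    {i : ℕ} {s : ℝ} (hd : 0 ≤ d) (hb : (i + 1 : ℝ) * d ≤ p) (hs : 0 ≤ s) (hs1 : s ≤ 1) :
    f ((i + s) * d) ≤ (1 - s) * f (i * d) + s * f ((i + 1) * d) + K * (d ^ 2 / 4) := by
  have h := chord hf (a := i * d) (b := (i + 1) * d) (by positivity)
    (by nlinarith) hb hs hs1
  have h1 : (1 - s) * (↑i * d) + s * ((↑i + 1) * d) = (i + s) * d := by ring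
  have h2 : ((↑i + 1) * d - ↑i * d) ^ 2 = d ^ 2 := by ring
  rw [h1, h2] at h
  have h3 : s * (1 - s) ≤ 1 / 4 := by nlinarith [sq_nonneg (2 * s - 1)]
  have h4 : K * (s * (1 - s) * d ^ 2) ≤ K * (d ^ 2 / 4) := by
    apply mul_le_mul_of_nonneg_left _ hK
    nlinarith [sq_nonneg d]
  linarith

/-- the grid lemma -/
theorem grid {f₀ f₁ g : ℝ → ℝ} {K₀ K₁ K₂ p d M : ℝ} {N : ℕ} (h0 : 0 ≤ K₀) (h1 : 0 ≤ K₁)
    (h2 : 0 ≤ K₂) (hd : 0 < d) (hp : N * d = p)
    (c0 : ConvexOn ℝ (Icc 0 p) (fun z => f₀ z + K₀ * z ^ 2))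
    (c1 : ConvexOn ℝ (Icc 0 p) (fun z => f₁ z + K₁ * z ^ 2))
    (c2 : ConvexOn ℝ (Icc 0 p) (fun z => g z + K₂ * z ^ 2))
    (hM : ∀ i j : ℕ, i + j ≤ N → f₀ (i * d) + f₁ (j * d) + g ((i + j : ℕ) * d) ≤ M)
    {x y : ℝ} (hx : 0 ≤ x) (hy : 0 ≤ y) (hxy : x + y ≤ p) :
    f₀ x + f₁ y + g (x + y) ≤ M + (K₀ + K₁ + K₂) * (d ^ 2 / 4) := by
  have hE0 : 0 ≤ (K₀ + K₁ + K₂) * (d ^ 2 / 4) := by positivity
  obtain ⟨i, s, hs, hs1, hxi⟩ : ∃ (i : ℕ) (s : ℝ), 0 ≤ s ∧ s < 1 ∧ x = (i + s) * d := by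
    refine ⟨⌊x / d⌋₊, x / d - ⌊x / d⌋₊, sub_nonneg.2 (Nat.floor_le (by positivity)), ?_, ?_⟩
    · have := Nat.lt_floor_add_one (x / d); linarith
    · field_simp; ring
  obtain ⟨j, t, ht, ht1, hyj⟩ : ∃ (j : ℕ) (t : ℝ), 0 ≤ t ∧ t < 1 ∧ y = (j + t) * d := by
    refine ⟨⌊y / d⌋₊, y / d - ⌊y / d⌋₊, sub_nonneg.2 (Nat.floor_le (by positivity)), ?_, ?_⟩
    · have := Nat.lt_floor_add_one (y / d); linarith
    · field_simp; ring
  have hsum : (i + s : ℝ) + (j + t) ≤ N := by
    have h3 : ((i + s : ℝ) + (j + t)) * d ≤ N * d := by rw [hp]; linarith [hxi, hyj]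
    exact le_of_mul_le_mul_right h3 hd
  have hle : ∀ {a : ℝ}, a ≤ N → a * d ≤ p := fun {a} h => by
    rw [← hp]; exact mul_le_mul_of_nonneg_right h hd.le
  rcases lt_or_ge (s + t) 1 with hst | hst
  · -- lower triangle
    rcases Nat.lt_or_ge (i + j) N with hN | hN
    · have hN' : (i + j + 1 : ℝ) ≤ N := by exact_mod_cast hN
      have hi : (i + 1 : ℝ) ≤ N := by have : (0 : ℝ) ≤ j := by positivity
                                      linarith
      have hj : (j + 1 : ℝ) ≤ N := by have : (0 : ℝ) ≤ i := by positivity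
                                      linarith
      have a0 := chord' h0 c0 hd.le (hle hi) hs hs1.le
      have a1 := chord' h1 c1 hd.le (hle hj) ht ht1.le
      have a2 := chord' h2 c2 (i := i + j) (s := s + t) hd.le (hle (by push_cast; exact hN'))
        (by positivity) hst.le
      have e : x + y = ((i + j : ℕ) + (s + t)) * d := by rw [hxi, hyj]; push_cast; ring
      rw [e, hxi, hyj]
      have m0 := hM i j hN.le
      have m1 := hM (i + 1) j (by omega)
      have m2 := hM i (j + 1) (by omega)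
      have e1 : (((i + 1 + j : ℕ) : ℝ)) * d = ((i + j : ℕ) + 1 : ℝ) * d := by push_cast; ring
      have e2 : (((i + (j + 1) : ℕ) : ℝ)) * d = ((i + j : ℕ) + 1 : ℝ) * d := by push_cast; ring
      rw [e1] at m1
      rw [e2] at m2
      push_cast at m0 m1 m2 a2 ⊢
      have w0 := mul_le_mul_of_nonneg_left m0 (by linarith : 0 ≤ 1 - s - t)
      have w1 := mul_le_mul_of_nonneg_left m1 hs
      have w2 := mul_le_mul_of_nonneg_left m2 ht
      linarith [a0, a1, a2, w0, w1, w2]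
    · -- the corner
      have hij : (N : ℝ) ≤ i + j := by exact_mod_cast hN
      have hs0 : s = 0 := by linarith
      have ht0 : t = 0 := by linarith
      have hN2 : i + j = N := by
        have : (i + j : ℝ) ≤ N := by linarith
        have h5 : i + j ≤ N := by exact_mod_cast this
        omega
      have m0 := hM i j hN2.le
      have e : x + y = ((i + j : ℕ) : ℝ) * d := by rw [hxi, hyj, hs0, ht0]; push_cast; ring
      rw [e, hxi, hyj, hs0, ht0, add_zero, add_zero]
      linarith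
  · -- upper triangle
    have hN' : (i + j + 1 : ℝ) ≤ N := by linarith
    have hNn : i + j + 1 ≤ N := by exact_mod_cast hN'
    have hi : (i + 1 : ℝ) ≤ N := by have : (0 : ℝ) ≤ j := by positivity
                                    linarith
    have hj : (j + 1 : ℝ) ≤ N := by have : (0 : ℝ) ≤ i := by positivity
                                    linarith
    have a0 := chord' h0 c0 hd.le (hle hi) hs hs1.le
    have a1 := chord' h1 c1 hd.le (hle hj) ht ht1.le
    have m1 := hM (i + 1) j (by omega)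
    have m2 := hM i (j + 1) (by omega)
    have e1 : (((i + 1 + j : ℕ) : ℝ)) * d = ((i + j + 1 : ℕ) : ℝ) * d := by push_cast; ring
    have e2 : (((i + (j + 1) : ℕ) : ℝ)) * d = ((i + j + 1 : ℕ) : ℝ) * d := by push_cast; ring
    rw [e1] at m1
    rw [e2] at m2
    rcases Nat.lt_or_ge (i + j + 1) N with hN | hN
    · have hN2 : ((i + j + 1 : ℕ) + 1 : ℝ) ≤ N := by exact_mod_cast hN
      have a2 := chord' h2 c2 (i := i + j + 1) (s := s + t - 1) hd.le (hle hN2)
        (by linarith) (by linarith)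
      have e : x + y = ((i + j + 1 : ℕ) + (s + t - 1)) * d := by
        rw [hxi, hyj]; push_cast; ring
      rw [e, hxi, hyj]
      have m0 := hM (i + 1) (j + 1) (by omega)
      have e3 : (((i + 1 + (j + 1) : ℕ) : ℝ)) * d = ((i + j + 1 : ℕ) + 1 : ℝ) * d := by
        push_cast; ring
      rw [e3] at m0
      push_cast at m0 m1 m2 a2 ⊢
      have w0 := mul_le_mul_of_nonneg_left m0 (by linarith : 0 ≤ s + t - 1)
      have w1 := mul_le_mul_of_nonneg_left m1 (by linarith : 0 ≤ 1 - t)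
      have w2 := mul_le_mul_of_nonneg_left m2 (by linarith : 0 ≤ 1 - s)
      linarith [a0, a1, a2, w0, w1, w2]
    · have hN2 : (N : ℝ) ≤ i + j + 1 := by exact_mod_cast hN
      have hst1 : s + t = 1 := by linarith
      have e : x + y = ((i + j + 1 : ℕ) : ℝ) * d := by
        rw [hxi, hyj]; push_cast
        linear_combination d * hst1
      rw [e, hxi, hyj]
      push_cast at m1 m2 ⊢
      have hE2 : 0 ≤ K₂ * (d ^ 2 / 4) := by positivity
      have ht' : t = 1 - s := by linarith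
      subst ht'
      have w1 := mul_le_mul_of_nonneg_left m1 hs
      have w2 := mul_le_mul_of_nonneg_left m2 (by linarith : 0 ≤ 1 - s)
      linarith [a0, a1, w1, w2, hE2]

end Pool.Agent.C9
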