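import Mathlib

/-! # MP_488b8a, nine caps: numerical engine, part C. Taylor bounds of sine and cosine. -/

set_option autoImplicit false

namespace Pool.Agent.C9

open Real

private theorem cmp {f g f' g' : ℝ → ℝ} (hf : ∀ x, HasDerivAt f (f' x) x)
    (hg : ∀ x, HasDerivAt g (g' x) x) (h0 : f 0 = g 0) (h : ∀ x, 0 ≤ x → f' x ≤ g' x)
    {x : ℝ} (hx : 0 ≤ x) : f x ≤ g x := by
  have hd : ∀ x, HasDerivAt (fun x => g x - f x) (g' x - f' x) x := fun x => (hg x).sub (hf x)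
  have hm : MonotoneOn (fun x => g x - f x) (Set.Ici 0) := by
    refine monotoneOn_of_deriv_nonneg (convex_Ici 0)
      (fun x _ => (hd x).continuousAt.continuousWithinAt)
      (fun x _ => (hd x).differentiableAt.differentiableWithinAt) fun x hx => ?_
    rw [interior_Ici] at hx
    rw [(hd x).deriv]
    exact sub_nonneg.2 (h x (le_of_lt hx))
  have := hm (Set.mem_Ici.2 le_rfl) (Set.mem_Ici.2 hx) hx
  simp only [h0, sub_self] at this
  linarith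

/-- derivative of a monomial -/
private theorem dm (k : ℝ) (n : ℕ) (x : ℝ) : HasDerivAt (fun x => k * x ^ n)
    (k * (n * x ^ (n - 1))) x := (hasDerivAt_pow n x).const_mul k

noncomputable def c2 (x : ℝ) : ℝ := 1 - x ^ 2 / 2
noncomputable def s3 (x : ℝ) : ℝ := x - x ^ 3 / 6
noncomputable def c4 (x : ℝ) : ℝ := c2 x + x ^ 4 / 24
noncomputable def s5 (x : ℝ) : ℝ := s3 x + x ^ 5 / 120
noncomputable def c6 (x : ℝ) : ℝ := c4 x - x ^ 6 / 720
noncomputable def s7 (x : ℝ) : ℝ := s5 x - x ^ 7 / 5040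
noncomputable def c8 (x : ℝ) : ℝ := c6 x + x ^ 8 / 40320
noncomputable def s9 (x : ℝ) : ℝ := s7 x + x ^ 9 / 362880
noncomputable def c10 (x : ℝ) : ℝ := c8 x - x ^ 10 / 3628800
noncomputable def s11 (x : ℝ) : ℝ := s9 x - x ^ 11 / 39916800
noncomputable def c12 (x : ℝ) : ℝ := c10 x + x ^ 12 / 479001600
noncomputable def s13 (x : ℝ) : ℝ := s11 x + x ^ 13 / 6227020800

private theorem dk (k : ℝ) (n : ℕ) (x : ℝ) : HasDerivAt (fun x : ℝ => x ^ (n + 1) / k)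
    ((n + 1) * x ^ n / k) x := by
  have := (hasDerivAt_pow (n + 1) x).div_const k
  simpa using this

private theorem hc2 (x : ℝ) : HasDerivAt c2 (-x) x := by
  have := (hasDerivAt_const x (1 : ℝ)).sub (dk 2 1 x)
  refine this.congr_deriv ?_
  push_cast; ring
private theorem hs3 (x : ℝ) : HasDerivAt s3 (c2 x) x := by
  refine ((hasDerivAt_id x).sub (dk 6 2 x)).congr_deriv ?_
  unfold c2; push_cast; ring
private theorem hc4 (x : ℝ) : HasDerivAt c4 (-s3 x) x := by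
  refine ((hc2 x).add (dk 24 3 x)).congr_deriv ?_
  unfold s3; push_cast; ring
private theorem hs5 (x : ℝ) : HasDerivAt s5 (c4 x) x := by
  refine ((hs3 x).add (dk 120 4 x)).congr_deriv ?_
  unfold c4; push_cast; ring
private theorem hc6 (x : ℝ) : HasDerivAt c6 (-s5 x) x := by
  refine ((hc4 x).sub (dk 720 5 x)).congr_deriv ?_
  unfold s5; push_cast; ring
private theorem hs7 (x : ℝ) : HasDerivAt s7 (c6 x) x := by
  refine ((hs5 x).sub (dk 5040 6 x)).congr_deriv ?_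
  unfold c6; push_cast; ring
private theorem hc8 (x : ℝ) : HasDerivAt c8 (-s7 x) x := by
  refine ((hc6 x).add (dk 40320 7 x)).congr_deriv ?_
  unfold s7; push_cast; ring
private theorem hs9 (x : ℝ) : HasDerivAt s9 (c8 x) x := by
  refine ((hs7 x).add (dk 362880 8 x)).congr_deriv ?_
  unfold c8; push_cast; ring
private theorem hc10 (x : ℝ) : HasDerivAt c10 (-s9 x) x := by
  refine ((hc8 x).sub (dk 3628800 9 x)).congr_deriv ?_
  unfold s9; push_cast; ring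
private theorem hs11 (x : ℝ) : HasDerivAt s11 (c10 x) x := by
  refine ((hs9 x).sub (dk 39916800 10 x)).congr_deriv ?_
  unfold c10; push_cast; ring
private theorem hc12 (x : ℝ) : HasDerivAt c12 (-s11 x) x := by
  refine ((hc10 x).add (dk 479001600 11 x)).congr_deriv ?_
  unfold s11; push_cast; ring
private theorem hs13 (x : ℝ) : HasDerivAt s13 (c12 x) x := by
  refine ((hs11 x).add (dk 6227020800 12 x)).congr_deriv ?_
  unfold c12; push_cast; ring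

private theorem z0 : c2 0 = 1 ∧ s3 0 = 0 ∧ c4 0 = 1 ∧ s5 0 = 0 ∧ c6 0 = 1 ∧ s7 0 = 0 ∧ c8 0 = 1 ∧
    s9 0 = 0 ∧ c10 0 = 1 ∧ s11 0 = 0 ∧ c12 0 = 1 ∧ s13 0 = 0 := by
  simp [c2, s3, c4, s5, c6, s7, c8, s9, c10, s11, c12, s13]

private theorem t1 {x : ℝ} (hx : 0 ≤ x) : sin x ≤ x := Real.sin_le hx
private theorem t2 {x : ℝ} (hx : 0 ≤ x) : c2 x ≤ cos x :=
  cmp hc2 hasDerivAt_cos (by rw [z0.1, cos_zero]) (fun _ h => neg_le_neg (t1 h)) hx
private theorem t3 {x : ℝ} (hx : 0 ≤ x) : s3 x ≤ sin x :=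
  cmp hs3 hasDerivAt_sin (by rw [z0.2.1, sin_zero]) (fun _ h => t2 h) hx
private theorem t4 {x : ℝ} (hx : 0 ≤ x) : cos x ≤ c4 x :=
  cmp hasDerivAt_cos hc4 (by rw [z0.2.2.1, cos_zero]) (fun _ h => neg_le_neg (t3 h)) hx
private theorem t5 {x : ℝ} (hx : 0 ≤ x) : sin x ≤ s5 x :=
  cmp hasDerivAt_sin hs5 (by rw [z0.2.2.2.1, sin_zero]) (fun _ h => t4 h) hx
private theorem t6 {x : ℝ} (hx : 0 ≤ x) : c6 x ≤ cos x :=
  cmp hc6 hasDerivAt_cos (by rw [z0.2.2.2.2.1, cos_zero]) (fun _ h => neg_le_neg (t5 h)) hx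
private theorem t7 {x : ℝ} (hx : 0 ≤ x) : s7 x ≤ sin x :=
  cmp hs7 hasDerivAt_sin (by rw [z0.2.2.2.2.2.1, sin_zero]) (fun _ h => t6 h) hx
private theorem t8 {x : ℝ} (hx : 0 ≤ x) : cos x ≤ c8 x :=
  cmp hasDerivAt_cos hc8 (by rw [z0.2.2.2.2.2.2.1, cos_zero]) (fun _ h => neg_le_neg (t7 h)) hx
private theorem t9 {x : ℝ} (hx : 0 ≤ x) : sin x ≤ s9 x :=
  cmp hasDerivAt_sin hs9 (by rw [z0.2.2.2.2.2.2.2.1, sin_zero]) (fun _ h => t8 h) hx

theorem cos_ge10 {x : ℝ} (hx : 0 ≤ x) : c10 x ≤ cos x :=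
  cmp hc10 hasDerivAt_cos (by rw [z0.2.2.2.2.2.2.2.2.1, cos_zero])
    (fun _ h => neg_le_neg (t9 h)) hx
theorem sin_ge11 {x : ℝ} (hx : 0 ≤ x) : s11 x ≤ sin x :=
  cmp hs11 hasDerivAt_sin (by rw [z0.2.2.2.2.2.2.2.2.2.1, sin_zero]) (fun _ h => cos_ge10 h) hx
theorem cos_le12 {x : ℝ} (hx : 0 ≤ x) : cos x ≤ c12 x :=
  cmp hasDerivAt_cos hc12 (by rw [z0.2.2.2.2.2.2.2.2.2.2.1, cos_zero])
    (fun _ h => neg_le_neg (sin_ge11 h)) hx
theorem sin_le13 {x : ℝ} (hx : 0 ≤ x) : sin x ≤ s13 x :=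
  cmp hasDerivAt_sin hs13 (by rw [z0.2.2.2.2.2.2.2.2.2.2.2, sin_zero]) (fun _ h => cos_le12 h) hx

/-- integer versions, `a / b` in place of `x` -/
def zs11 (a b : ℤ) : ℤ := 39916800 * a * b ^ 10 - 6652800 * a ^ 3 * b ^ 8 +
  332640 * a ^ 5 * b ^ 6 - 7920 * a ^ 7 * b ^ 4 + 110 * a ^ 9 * b ^ 2 - a ^ 11
def zs13 (a b : ℤ) : ℤ := 156 * b ^ 2 * zs11 a b + a ^ 13
def zc10 (a b : ℤ) : ℤ := 3628800 * b ^ 10 - 1814400 * a ^ 2 * b ^ 8 + 151200 * a ^ 4 * b ^ 6 -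
  5040 * a ^ 6 * b ^ 4 + 90 * a ^ 8 * b ^ 2 - a ^ 10
def zc12 (a b : ℤ) : ℤ := 132 * b ^ 2 * zc10 a b + a ^ 12

theorem zs11_le {a b : ℤ} (ha : 0 ≤ a) (hb : 0 < b) :
    (zs11 a b : ℝ) ≤ 39916800 * (b : ℝ) ^ 11 * sin (a / b) := by
  have hb' : (0 : ℝ) < b := by exact_mod_cast hb
  have ha' : (0 : ℝ) ≤ a := by exact_mod_cast ha
  have h := sin_ge11 (x := (a : ℝ) / b) (by positivity)
  have e : (zs11 a b : ℝ) = 39916800 * (b : ℝ) ^ 11 * s11 (a / b) := by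
    unfold zs11 s11 s9 s7 s5 s3
    push_cast
    field_simp
    ring
  rw [e]
  exact mul_le_mul_of_nonneg_left h (by positivity)

theorem le_zs13 {a b : ℤ} (ha : 0 ≤ a) (hb : 0 < b) :
    6227020800 * (b : ℝ) ^ 13 * sin (a / b) ≤ (zs13 a b : ℝ) := by
  have hb' : (0 : ℝ) < b := by exact_mod_cast hb
  have ha' : (0 : ℝ) ≤ a := by exact_mod_cast ha
  have h := sin_le13 (x := (a : ℝ) / b) (by positivity)
  have e : (zs13 a b : ℝ) = 6227020800 * (b : ℝ) ^ 13 * s13 (a / b) := by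
    unfold zs13 zs11 s13 s11 s9 s7 s5 s3
    push_cast
    field_simp
    ring
  rw [e]
  exact mul_le_mul_of_nonneg_left h (by positivity)

theorem zc10_le {a b : ℤ} (ha : 0 ≤ a) (hb : 0 < b) :
    (zc10 a b : ℝ) ≤ 3628800 * (b : ℝ) ^ 10 * cos (a / b) := by
  have hb' : (0 : ℝ) < b := by exact_mod_cast hb
  have ha' : (0 : ℝ) ≤ a := by exact_mod_cast ha
  have h := cos_ge10 (x := (a : ℝ) / b) (by positivity)
  have e : (zc10 a b : ℝ) = 3628800 * (b : ℝ) ^ 10 * c10 (a / b) := by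
    unfold zc10 c10 c8 c6 c4 c2
    push_cast
    field_simp
    ring
  rw [e]
  exact mul_le_mul_of_nonneg_left h (by positivity)

theorem le_zc12 {a b : ℤ} (ha : 0 ≤ a) (hb : 0 < b) :
    479001600 * (b : ℝ) ^ 12 * cos (a / b) ≤ (zc12 a b : ℝ) := by
  have hb' : (0 : ℝ) < b := by exact_mod_cast hb
  have ha' : (0 : ℝ) ≤ a := by exact_mod_cast ha
  have h := cos_le12 (x := (a : ℝ) / b) (by positivity)
  have e : (zc12 a b : ℝ) = 479001600 * (b : ℝ) ^ 12 * c12 (a / b) := by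
    unfold zc12 zc10 c12 c10 c8 c6 c4 c2
    push_cast
    field_simp
    ring
  rw [e]
  exact mul_le_mul_of_nonneg_left h (by positivity)

end Pool.Agent.C9
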