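import Pool.Agent.Lib.MP_488b8a_co_N.EngT

/-! # MP_488b8a, nine caps: numerical engine, part S. Soundness of the tables. -/

set_option autoImplicit false

namespace Pool.Agent.C9

open Real
open Pool.Agent.C32 (ph ph_eq ph_zero ph_half)

private theorem pi_lo : (3141592653589 : ℝ) / 1000000000000 ≤ π := by
  have := Real.pi_gt_d20
  norm_num at this ⊢
  linarith

private theorem pi_hi : π ≤ (3141592653590 : ℝ) / 1000000000000 := by
  have := Real.pi_lt_d20
  norm_num at this ⊢
  linarith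

private theorem gt_nonneg (t : List ℕ) (j : ℕ) : (0 : ℝ) ≤ gt t j := by
  unfold gt
  push_cast
  positivity

theorem sc_bounds {j : ℕ} (hj : j < 33) :
    (gt tSL j : ℝ) ≤ 10 ^ 9 * sin (j * (π / 64)) ∧ 10 ^ 9 * sin (j * (π / 64)) ≤ gt tSU j ∧
    (gt tCL j : ℝ) ≤ 10 ^ 9 * cos (j * (π / 64)) ∧ 10 ^ 9 * cos (j * (π / 64)) ≤ gt tCU j := by
  have h := okSC_all j hj
  unfold okSC at h
  obtain ⟨h1, h2, h3, h4⟩ := of_decide_eq_true h
  have hp := pi_pos
  have hj0 : (0 : ℝ) ≤ j := by positivity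
  have hj32 : (j : ℝ) ≤ 32 := by exact_mod_cast Nat.lt_succ_iff.1 hj
  have hbP : (0 : ℤ) < bP := by norm_num [bP]
  have hbR : ((bP : ℤ) : ℝ) = 64000000000000 := by norm_num [bP]
  have hz0 : 0 ≤ (j : ℝ) * (π / 64) := by positivity
  have hz1 : (j : ℝ) * (π / 64) ≤ π / 2 := by nlinarith
  -- lower and upper approximations of the argument
  have hl : (((j : ℤ) * 3141592653589 : ℤ) : ℝ) / ((bP : ℤ) : ℝ) ≤ j * (π / 64) := by
    rw [hbR]
    push_cast
    have := mul_le_mul_of_nonneg_left pi_lo hj0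
    linarith
  have hu : (j : ℝ) * (π / 64) ≤ (((j : ℤ) * 3141592653590 : ℤ) : ℝ) / ((bP : ℤ) : ℝ) := by
    rw [hbR]
    push_cast
    have := mul_le_mul_of_nonneg_left pi_hi hj0
    linarith
  have hl0 : 0 ≤ (((j : ℤ) * 3141592653589 : ℤ) : ℝ) / ((bP : ℤ) : ℝ) := by
    rw [hbR]; push_cast; positivity
  have ha1 : (0 : ℤ) ≤ (j : ℤ) * 3141592653589 := by omega
  have ha2 : (0 : ℤ) ≤ (j : ℤ) * 3141592653590 := by omega
  have e9 : (10 : ℝ) ^ 9 = 1000000000 := by norm_num
  have k1 := zs11_le ha1 hbP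
  have k2 := le_zs13 ha2 hbP
  have k3 := zc10_le ha2 hbP
  have k4 := le_zc12 ha1 hbP
  have hupi : (((j : ℤ) * 3141592653590 : ℤ) : ℝ) / ((bP : ℤ) : ℝ) ≤ π := by
    rw [hbR]
    push_cast
    have := Real.pi_gt_d20
    norm_num at this
    nlinarith
  set yl : ℝ := (((j : ℤ) * 3141592653589 : ℤ) : ℝ) / ((bP : ℤ) : ℝ)
  set yu : ℝ := (((j : ℤ) * 3141592653590 : ℤ) : ℝ) / ((bP : ℤ) : ℝ)
  rw [hbR] at k1 k2 k3 k4
  refine ⟨?_, ?_, ?_, ?_⟩
  · have h1' : (gt tSL j : ℝ) * (39916800 * (64000000000000 : ℝ) ^ 11) ≤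
        10 ^ 9 * (zs11 (j * 3141592653589) bP : ℤ) := by
      have := (Int.cast_le (R := ℝ)).2 h1
      push_cast [hbR] at this ⊢
      rw [e9]
      exact this
    have hs : sin yl ≤ sin (j * (π / 64)) :=
      sin_le_sin_of_le_of_le_pi_div_two (by linarith) hz1 hl
    have h5 : (gt tSL j : ℝ) * (39916800 * (64000000000000 : ℝ) ^ 11) ≤
        (10 ^ 9 * sin yl) * (39916800 * (64000000000000 : ℝ) ^ 11) := by
      calc _ ≤ _ := h1'
        _ ≤ 10 ^ 9 * (39916800 * (64000000000000 : ℝ) ^ 11 * sin yl) :=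
            mul_le_mul_of_nonneg_left k1 (by positivity)
        _ = _ := by ring
    have h6 := le_of_mul_le_mul_right h5 (by positivity)
    linarith [mul_le_mul_of_nonneg_left hs (by positivity : (0 : ℝ) ≤ 10 ^ 9)]
  · rcases h2 with ⟨hj', h2⟩ | ⟨hj', h2⟩
    · have := sin_le_one (j * (π / 64))
      have h7 : (gt tSU j : ℝ) = 10 ^ 9 := by exact_mod_cast h2
      rw [h7]
      nlinarith
    · have h2' : 10 ^ 9 * ((zs13 (j * 3141592653590) bP : ℤ) : ℝ) ≤
          (gt tSU j : ℝ) * (6227020800 * (64000000000000 : ℝ) ^ 13) := by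
        have := (Int.cast_le (R := ℝ)).2 h2
        push_cast [hbR] at this ⊢
        rw [e9]
        exact this
      have hj31 : (j : ℝ) ≤ 31 := by exact_mod_cast Nat.lt_succ_iff.1 hj'
      have hyu : yu ≤ π / 2 := by
        have h8 : yu = (j : ℝ) * 3141592653590 / 64000000000000 := by
          simp only [yu]; rw [hbR]; push_cast; ring
        rw [h8]
        have := Real.pi_gt_d20
        norm_num at this
        nlinarith
      have hs : sin (j * (π / 64)) ≤ sin yu :=
        sin_le_sin_of_le_of_le_pi_div_two (by linarith) hyu hu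
      have h5 : (10 ^ 9 * sin yu) * (6227020800 * (64000000000000 : ℝ) ^ 13) ≤
          (gt tSU j : ℝ) * (6227020800 * (64000000000000 : ℝ) ^ 13) := by
        calc _ = 10 ^ 9 * (6227020800 * (64000000000000 : ℝ) ^ 13 * sin yu) := by ring
          _ ≤ _ := mul_le_mul_of_nonneg_left k2 (by positivity)
          _ ≤ _ := h2'
      have h6 := le_of_mul_le_mul_right h5 (by positivity)
      linarith [mul_le_mul_of_nonneg_left hs (by positivity : (0 : ℝ) ≤ 10 ^ 9)]
  · rcases h3 with h3 | h3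
    · rw [h3]
      have : 0 ≤ cos (j * (π / 64)) := cos_nonneg_of_mem_Icc ⟨by linarith, hz1⟩
      push_cast
      positivity
    · have h3' : (gt tCL j : ℝ) * (3628800 * (64000000000000 : ℝ) ^ 10) ≤
          10 ^ 9 * (zc10 (j * 3141592653590) bP : ℤ) := by
        have := (Int.cast_le (R := ℝ)).2 h3
        push_cast [hbR] at this ⊢
        rw [e9]
        exact this
      have hs : cos yu ≤ cos (j * (π / 64)) := cos_le_cos_of_nonneg_of_le_pi hz0 hupi hu
      have h5 : (gt tCL j : ℝ) * (3628800 * (64000000000000 : ℝ) ^ 10) ≤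
          (10 ^ 9 * cos yu) * (3628800 * (64000000000000 : ℝ) ^ 10) := by
        calc _ ≤ _ := h3'
          _ ≤ 10 ^ 9 * (3628800 * (64000000000000 : ℝ) ^ 10 * cos yu) :=
              mul_le_mul_of_nonneg_left k3 (by positivity)
          _ = _ := by ring
      have h6 := le_of_mul_le_mul_right h5 (by positivity)
      linarith [mul_le_mul_of_nonneg_left hs (by positivity : (0 : ℝ) ≤ 10 ^ 9)]
  · have h4' : 10 ^ 9 * ((zc12 (j * 3141592653589) bP : ℤ) : ℝ) ≤
        (gt tCU j : ℝ) * (479001600 * (64000000000000 : ℝ) ^ 12) := by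
      have := (Int.cast_le (R := ℝ)).2 h4
      push_cast [hbR] at this ⊢
      rw [e9]
      exact this
    have hs : cos (j * (π / 64)) ≤ cos yl := cos_le_cos_of_nonneg_of_le_pi hl0 (by linarith) hl
    have h5 : (10 ^ 9 * cos yl) * (479001600 * (64000000000000 : ℝ) ^ 12) ≤
        (gt tCU j : ℝ) * (479001600 * (64000000000000 : ℝ) ^ 12) := by
      calc _ = 10 ^ 9 * (479001600 * (64000000000000 : ℝ) ^ 12 * cos yl) := by ring
        _ ≤ _ := mul_le_mul_of_nonneg_left k4 (by positivity)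
        _ ≤ _ := h4'
    have h6 := le_of_mul_le_mul_right h5 (by positivity)
    linarith [mul_le_mul_of_nonneg_left hs (by positivity : (0 : ℝ) ≤ 10 ^ 9)]

/-- the node `c_k` -/
noncomputable def cn (k : ℕ) : ℝ := (gt tC k : ℝ) / 1000

theorem cn_pos : ∀ k < 20, (0 : ℝ) < cn k := by
  intro k hk
  have h : ∀ k < 20, (0 : ℤ) < gt tC k := by decide +kernel
  have := h k hk
  unfold cn
  have h2 : (0 : ℝ) < gt tC k := by exact_mod_cast this
  positivity

theorem ph_bounds {k j : ℕ} (hk : k < 20) (hj : j < 33) :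
    (gtt tL k j : ℝ) ≤ 10 ^ 5 * ph (cn k) (j * (π / 64)) ∧
      10 ^ 5 * ph (cn k) (j * (π / 64)) ≤ gtt tU k j := by
  have hp := pi_pos
  have hc := cn_pos k hk
  have hlo := Real.pi_gt_d20
  have hhi := Real.pi_lt_d20
  norm_num at hlo hhi
  have h := okP_all k hk j hj
  unfold okP at h
  rcases of_decide_eq_true h with ⟨h0, h1, h2⟩ | ⟨h0, h1, h2⟩ | ⟨h0, h32, hU, hL, h1, hz, h2⟩
  · subst h0
    rw [h1, h2, Nat.cast_zero, zero_mul, ph_zero]
    push_cast
    constructor <;> linarith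
  · subst h0
    have e : ((32 : ℕ) : ℝ) * (π / 64) = π / 2 := by push_cast; ring
    rw [h1, h2, e, ph_half hc]
    simp
  obtain ⟨b1, b2, b3, b4⟩ := sc_bounds hj
  have hj0 : (0 : ℝ) < j := by exact_mod_cast h0
  have hj31 : (j : ℝ) ≤ 31 := by exact_mod_cast Nat.lt_succ_iff.1 h32
  set z : ℝ := j * (π / 64) with hzdef
  have hz0 : 0 < z := by positivity
  have hz1 : z < π / 2 := by rw [hzdef]; nlinarith
  have hsz : 0 < sin z := sin_pos_of_pos_of_lt_pi hz0 (by linarith)
  have hcz : 0 < cos z := cos_pos_of_mem_Ioo ⟨by linarith, hz1⟩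
  rw [ph_eq hc hz0 (by linarith)]
  have hcn : 1000 * cn k = gt tC k := by unfold cn; ring
  have nn : ∀ k j, (0 : ℤ) ≤ gtt tU k j := fun k j => by unfold gtt; positivity
  have nn' : ∀ k j, (0 : ℤ) ≤ gtt tL k j := fun k j => by unfold gtt; positivity
  have b5 : (0 : ℝ) ≤ gt tSL j := gt_nonneg _ _
  have b6 : (0 : ℝ) ≤ gt tCL j := gt_nonneg _ _
  constructor
  · -- lower bound
    set y : ℝ := (gtt tL k j : ℝ) / 100000 with hy
    have hy0 : 0 ≤ y := by
      have : (0 : ℝ) ≤ gtt tL k j := by exact_mod_cast nn' k j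
      positivity
    have hy1 : y < π / 2 := by
      have : (gtt tL k j : ℝ) ≤ 157079 := by exact_mod_cast hL
      rw [hy]; linarith
    have hcy : 0 < cos y := cos_pos_of_mem_Ioo ⟨by linarith, hy1⟩
    have k1 := le_zs13 (nn' k j) (b := 100000) (by norm_num)
    have k2 := zc10_le (nn' k j) (b := 100000) (by norm_num)
    push_cast at k1 k2
    rw [← hy] at k1 k2
    have h2' : (gt tC k : ℝ) * (gt tSU j * (zs13 (gtt tL k j) 100000 : ℤ)) *
        (3628800 * 100000 ^ 10) ≤ gt tCL j * ((zc10 (gtt tL k j) 100000 : ℤ) : ℝ) *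
          (1000 * (6227020800 * 100000 ^ 13)) := by exact_mod_cast h2
    have hz' : (0 : ℝ) ≤ (zc10 (gtt tL k j) 100000 : ℤ) := by exact_mod_cast hz
    -- c sin z sin y ≤ cos z cos y
    have key : cn k * sin z * sin y ≤ cos z * cos y := by
      have hsy : 0 ≤ sin y := sin_nonneg_of_nonneg_of_le_pi hy0 (by linarith)
      have e1 : (1000 * cn k) * (10 ^ 9 * sin z) * (6227020800 * 100000 ^ 13 * sin y) ≤
          (gt tC k : ℝ) * (gt tSU j * (zs13 (gtt tL k j) 100000 : ℤ)) := by
        rw [hcn, mul_assoc]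
        apply mul_le_mul_of_nonneg_left _ (gt_nonneg _ _)
        exact mul_le_mul b2 k1 (by positivity) (gt_nonneg _ _)
      have e2 : gt tCL j * ((zc10 (gtt tL k j) 100000 : ℤ) : ℝ) ≤
          (10 ^ 9 * cos z) * (3628800 * 100000 ^ 10 * cos y) :=
        mul_le_mul b3 k2 hz' (by positivity)
      have e3 := mul_le_mul_of_nonneg_right e1
        (by positivity : (0 : ℝ) ≤ 3628800 * 100000 ^ 10)
      have e4 := mul_le_mul_of_nonneg_right e2
        (by positivity : (0 : ℝ) ≤ 1000 * (6227020800 * 100000 ^ 13))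
      have e5 : (cn k * sin z * sin y) * (1000 * 10 ^ 9 * (6227020800 * 100000 ^ 13) *
          (3628800 * 100000 ^ 10)) ≤ (cos z * cos y) * (1000 * 10 ^ 9 *
            (6227020800 * 100000 ^ 13) * (3628800 * 100000 ^ 10)) := by
        calc _ = (1000 * cn k) * (10 ^ 9 * sin z) * (6227020800 * 100000 ^ 13 * sin y) *
              (3628800 * 100000 ^ 10) := by ring
          _ ≤ _ := e3
          _ ≤ _ := h2'
          _ ≤ _ := e4
          _ = _ := by ring
      exact le_of_mul_le_mul_right e5 (by positivity)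
    have ht : tan y ≤ cos z / (cn k * sin z) := by
      rw [tan_eq_sin_div_cos, div_le_div_iff₀ hcy (mul_pos hc hsz)]
      linarith
    have h9 : y ≤ arctan (cos z / (cn k * sin z)) := by
      rw [← arctan_tan (by linarith) hy1]
      exact arctan_strictMono.monotone ht
    have : (gtt tL k j : ℝ) = 100000 * y := by rw [hy]; ring
    rw [this]
    norm_num
    exact h9
  · -- upper bound
    set y : ℝ := (gtt tU k j : ℝ) / 100000 with hy
    have hy0 : 0 ≤ y := by
      have : (0 : ℝ) ≤ gtt tU k j := by exact_mod_cast nn k j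
      positivity
    have hy1 : y < π / 2 := by
      have : (gtt tU k j : ℝ) ≤ 157079 := by exact_mod_cast hU
      rw [hy]; linarith
    have hcy : 0 < cos y := cos_pos_of_mem_Ioo ⟨by linarith, hy1⟩
    have k1 := zs11_le (nn k j) (b := 100000) (by norm_num)
    have k2 := le_zc12 (nn k j) (b := 100000) (by norm_num)
    push_cast at k1 k2
    rw [← hy] at k1 k2
    have h1' : (gt tCU j : ℝ) * ((zc12 (gtt tU k j) 100000 : ℤ) : ℝ) *
        (1000 * (39916800 * 100000 ^ 11)) ≤ (gt tC k : ℝ) *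
          (gt tSL j * (zs11 (gtt tU k j) 100000 : ℤ)) * (479001600 * 100000 ^ 12) := by
      exact_mod_cast h1
    have key : cos z * cos y ≤ cn k * sin z * sin y := by
      have hsy : 0 ≤ sin y := sin_nonneg_of_nonneg_of_le_pi hy0 (by linarith)
      have e1 : (gt tC k : ℝ) * (gt tSL j * (zs11 (gtt tU k j) 100000 : ℤ)) ≤
          (1000 * cn k) * (10 ^ 9 * sin z) * (39916800 * 100000 ^ 11 * sin y) := by
        rw [hcn, mul_assoc]
        apply mul_le_mul_of_nonneg_left _ (gt_nonneg _ _)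
        calc gt tSL j * ((zs11 (gtt tU k j) 100000 : ℤ) : ℝ) ≤
            gt tSL j * (39916800 * 100000 ^ 11 * sin y) := mul_le_mul_of_nonneg_left k1 b5
          _ ≤ _ := mul_le_mul_of_nonneg_right b1 (by positivity)
      have e2 : (10 ^ 9 * cos z) * (479001600 * 100000 ^ 12 * cos y) ≤
          gt tCU j * ((zc12 (gtt tU k j) 100000 : ℤ) : ℝ) :=
        mul_le_mul b4 k2 (by positivity) (gt_nonneg _ _)
      have e3 := mul_le_mul_of_nonneg_right e1
        (by positivity : (0 : ℝ) ≤ 479001600 * 100000 ^ 12)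
      have e4 := mul_le_mul_of_nonneg_right e2
        (by positivity : (0 : ℝ) ≤ 1000 * (39916800 * 100000 ^ 11))
      have e5 : (cos z * cos y) * (1000 * 10 ^ 9 * (39916800 * 100000 ^ 11) *
          (479001600 * 100000 ^ 12)) ≤ (cn k * sin z * sin y) * (1000 * 10 ^ 9 *
            (39916800 * 100000 ^ 11) * (479001600 * 100000 ^ 12)) := by
        calc _ = (10 ^ 9 * cos z) * (479001600 * 100000 ^ 12 * cos y) *
              (1000 * (39916800 * 100000 ^ 11)) := by ring
          _ ≤ _ := e4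
          _ ≤ _ := h1'
          _ ≤ _ := e3
          _ = _ := by ring
      exact le_of_mul_le_mul_right e5 (by positivity)
    have ht : cos z / (cn k * sin z) ≤ tan y := by
      rw [tan_eq_sin_div_cos, div_le_div_iff₀ (mul_pos hc hsz) hcy]
      linarith
    have h9 : arctan (cos z / (cn k * sin z)) ≤ y := by
      rw [← arctan_tan (by linarith : -(π / 2) < y) hy1]
      exact arctan_strictMono.monotone ht
    have : (gtt tU k j : ℝ) = 100000 * y := by rw [hy]; ring
    rw [this]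
    norm_num
    exact h9

end Pool.Agent.C9
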