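import Pool.Agent.Lib.MP_488b8a_co_N.EngA
import Pool.Agent.Lib.MP_488b8a_co_N.EngB
import Pool.Agent.Lib.MP_488b8a_co_N.EngS

/-! # MP_488b8a, nine caps: numerical engine, part D. The check and its soundness. -/

set_option autoImplicit false

namespace Pool.Agent.C9

open Real
open Pool.Agent.C32 (ph ph_pi_sub ph_mono_c)

/-- the data of one side: weight of `ph` (in units 1/100), coefficients of `y` and `y²`
(in units 1/100), `inc = true` if `k1 y + k2 y²` increases -/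
structure Sd where
  W : ℕ
  k1 : ℤ
  k2 : ℤ
  inc : Bool

/-- the function of the side -/
noncomputable def eR (s : Sd) (y : ℝ) : ℝ := s.k1 / 100 * y + s.k2 / 100 * y ^ 2

/-- bounds of `10⁵ ph c (j π / 64)`, `-10⁵ ph c (j π / 64)` for `c` in the slab `k` -/
def pU (k j : ℕ) : ℤ := bif Nat.ble j 32 then gtt tU k j else -gtt tL (k + 1) (64 - j)
def pN (k j : ℕ) : ℤ := bif Nat.ble j 32 then -gtt tL (k + 1) j else gtt tU k (64 - j)
def idx (j : ℕ) : ℕ := bif Nat.ble j 32 then j else 64 - j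

/-- bound of `10²⁴ (1 - c²) sin² (j π / 64)` -/
def xx (k j : ℕ) (inc : Bool) : ℤ :=
  bif inc then (1000000 - gt tC k ^ 2) * gt tSU (idx j) ^ 2
  else (1000000 - gt tC (k + 1) ^ 2) * gt tSL (idx j) ^ 2

def ef (k1 k2 x : ℤ) : ℤ := k1 * x * 10 ^ 24 + k2 * x ^ 2

def fF (s : Sd) (k j : ℕ) : ℕ :=
  ((s.W : ℤ) * pU k j * 10 ^ 43 + ef s.k1 s.k2 (xx k j s.inc) + 10 ^ 52).toNat
def fG (s : Sd) (k j : ℕ) : ℕ :=
  ((s.W : ℤ) * pN k j * 10 ^ 43 + ef s.k1 s.k2 (xx k j s.inc) + 10 ^ 52).toNat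

def all2 (a M : ℕ) : List ℕ → List ℕ → Bool
  | b :: B, g :: G => Nat.ble (a + b + g) M && all2 a M B G
  | _, _ => true

def all3 (M : ℕ) : List ℕ → List ℕ → List ℕ → Bool
  | a :: A, B, g :: G => all2 a M B (g :: G) && all3 M A B G
  | _, _, _ => true

def chk1 (s0 s1 s2 : Sd) (k M : ℕ) : Bool :=
  all3 M ((List.range 65).map (fF s0 k)) ((List.range 65).map (fF s1 k))
    ((List.range 65).map (fG s2 k))

def okS (s : Sd) : Bool :=
  bif s.inc then decide (0 ≤ s.k1 ∧ 0 ≤ 10000 * s.k1 + 10312 * s.k2)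
  else decide (s.k1 ≤ 0 ∧ 10000 * s.k1 + 10312 * s.k2 ≤ 0)

/-- `10¹⁴` times the convexity constant of the side -/
def Kz (s : Sd) : ℤ :=
  (s.W : ℤ) * 450000000000 + |s.k1| * 515584000000 + 2 * |s.k2| * 265826861056

def lim (s0 s1 s2 : Sd) (Mf : ℤ) : ℤ :=
  3 * 10 ^ 52 + Mf * 10 ^ 45 - (Kz s0 + Kz s1 + Kz s2) * (603 * 10 ^ 30)

def full (s0 s1 s2 : Sd) (Mf : ℤ) (Ml : ℕ) : Bool :=
  okS s0 && okS s1 && okS s2 && decide ((Ml : ℤ) ≤ lim s0 s1 s2 Mf) &&
    (List.range 19).all fun k => chk1 s0 s1 s2 k Ml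

theorem all2_spec {a M : ℕ} {B G : List ℕ} (h : all2 a M B G = true) :
    ∀ {j b g : ℕ}, B[j]? = some b → G[j]? = some g → a + b + g ≤ M := by
  induction B generalizing G with
  | nil => intro j b g hb; simp at hb
  | cons b0 B ih =>
    cases G with
    | nil => intro j b g _ hg; simp at hg
    | cons g0 G =>
      simp only [all2, Bool.and_eq_true] at h
      intro j b g hb hg
      cases j with
      | zero =>
        simp only [List.getElem?_cons_zero, Option.some.injEq] at hb hg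
        subst hb hg
        exact Nat.le_of_ble_eq_true h.1
      | succ j =>
        simp only [List.getElem?_cons_succ] at hb hg
        exact ih h.2 hb hg

theorem all3_spec {M : ℕ} {A B G : List ℕ} (h : all3 M A B G = true) :
    ∀ {i j a b g : ℕ}, A[i]? = some a → B[j]? = some b → G[i + j]? = some g →
      a + b + g ≤ M := by
  induction A generalizing G with
  | nil => intro i j a b g ha; simp at ha
  | cons a0 A ih =>
    cases G with
    | nil => intro i j a b g _ _ hg; simp at hg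
    | cons g0 G =>
      simp only [all3, Bool.and_eq_true] at h
      intro i j a b g ha hb hg
      cases i with
      | zero =>
        simp only [List.getElem?_cons_zero, Option.some.injEq] at ha
        subst ha
        rw [Nat.zero_add] at hg
        exact all2_spec h.1 hb hg
      | succ i =>
        simp only [List.getElem?_cons_succ] at ha
        rw [Nat.succ_add, List.getElem?_cons_succ] at hg
        exact ih h.2 ha hb hg

theorem chk1_spec {s0 s1 s2 : Sd} {k M : ℕ} (h : chk1 s0 s1 s2 k M = true) {i j : ℕ}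
    (hij : i + j ≤ 64) : fF s0 k i + fF s1 k j + fG s2 k (i + j) ≤ M := by
  have hr : ∀ (f : ℕ → ℕ) (n : ℕ), n < 65 → ((List.range 65).map f)[n]? = some (f n) := by
    intro f n hn
    rw [List.getElem?_map, List.getElem?_range hn]
    rfl
  exact all3_spec h (hr _ i (by omega)) (hr _ j (by omega)) (hr _ (i + j) (by omega))

section slab

variable {k : ℕ} {c : ℝ}

private theorem sin_sym {j : ℕ} (hj : j ≤ 64) :
    sin (j * (π / 64)) = sin ((idx j : ℕ) * (π / 64)) ∧ idx j < 33 := by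
  unfold idx
  by_cases h : j ≤ 32
  · rw [Nat.ble_eq_true_of_le h, cond_true]
    exact ⟨rfl, by omega⟩
  · have h2 : Nat.ble j 32 = false := by
      rw [Bool.eq_false_iff]
      exact fun h3 => h (Nat.le_of_ble_eq_true h3)
    rw [h2, cond_false]
    refine ⟨?_, by omega⟩
    rw [← sin_pi_sub]
    congr 1
    rw [Nat.cast_sub hj]
    push_cast
    ring

private theorem sin_bd {j : ℕ} (hj : j ≤ 64) :
    (gt tSL (idx j) : ℝ) ≤ 10 ^ 9 * sin (j * (π / 64)) ∧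
      10 ^ 9 * sin (j * (π / 64)) ≤ gt tSU (idx j) := by
  obtain ⟨h1, h2⟩ := sin_sym hj
  obtain ⟨b1, b2, -, -⟩ := sc_bounds h2
  rw [h1]
  exact ⟨b1, b2⟩

private theorem cn_eq (k : ℕ) : (gt tC k : ℝ) = 1000 * cn k := by
  unfold cn
  ring

theorem pU_spec (hk : k < 19) (h1 : cn k ≤ c) (h2 : c ≤ cn (k + 1)) {j : ℕ} (hj : j ≤ 64) :
    10 ^ 5 * ph c (j * (π / 64)) ≤ pU k j ∧ -(10 ^ 5 * ph c (j * (π / 64))) ≤ pN k j := by
  have hp := pi_pos
  have hc0 : 0 < cn k := cn_pos k (by omega)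
  have hc : 0 < c := hc0.trans_le h1
  have key : ∀ i : ℕ, i ≤ 32 → (gtt tL (k + 1) i : ℝ) ≤ 10 ^ 5 * ph c (i * (π / 64)) ∧
      10 ^ 5 * ph c (i * (π / 64)) ≤ gtt tU k i := by
    intro i hi
    have hi' : (i : ℝ) ≤ 32 := by exact_mod_cast hi
    have hz0 : (0 : ℝ) ≤ i * (π / 64) := by positivity
    have hz1 : (i : ℝ) * (π / 64) ≤ π / 2 := by nlinarith
    have a1 := (ph_bounds (k := k) (j := i) (by omega) (by omega)).2
    have a2 := (ph_bounds (k := k + 1) (j := i) (by omega) (by omega)).1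
    have a3 := ph_mono_c hc0 h1 hz0 hz1
    have a4 := ph_mono_c hc h2 hz0 hz1
    constructor <;> linarith
  unfold pU pN
  by_cases h : j ≤ 32
  · rw [Nat.ble_eq_true_of_le h, cond_true, cond_true]
    obtain ⟨k1, k2⟩ := key j h
    push_cast
    constructor <;> linarith
  · have h3 : Nat.ble j 32 = false := by
      rw [Bool.eq_false_iff]
      exact fun h3 => h (Nat.le_of_ble_eq_true h3)
    rw [h3, cond_false, cond_false]
    obtain ⟨k1, k2⟩ := key (64 - j) (by omega)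
    have h4 : ((64 - j : ℕ) : ℝ) * (π / 64) = π - j * (π / 64) := by
      rw [Nat.cast_sub hj]
      push_cast
      ring
    have hj' : (j : ℝ) ≤ 64 := by exact_mod_cast hj
    rw [h4, ph_pi_sub hc (by positivity) (by nlinarith)] at k1 k2
    push_cast
    constructor <;> linarith

private theorem slab_sq (hk : k < 19) (h1 : cn k ≤ c) (h2 : c ≤ cn (k + 1)) :
    0 ≤ (1000000 - gt tC (k + 1) ^ 2 : ℝ) ∧
    (1000000 - gt tC (k + 1) ^ 2 : ℝ) ≤ 1000000 * (1 - c ^ 2) ∧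
    1000000 * (1 - c ^ 2) ≤ (1000000 - gt tC k ^ 2 : ℝ) ∧
    (1000000 - gt tC k ^ 2 : ℝ) ≤ 515584 := by
  have hc0 : 0 < cn k := cn_pos k (by omega)
  have q : ∀ k < 20, (696 : ℤ) ≤ gt tC k ∧ gt tC k ≤ 1000 := by decide +kernel
  have q1 := (q k (by omega)).1
  have q2 := (q (k + 1) (by omega)).2
  have q1' : (696 : ℝ) ≤ gt tC k := by exact_mod_cast q1
  have q2' : (gt tC (k + 1) : ℝ) ≤ 1000 := by exact_mod_cast q2
  rw [cn_eq] at q1' q2' ⊢
  rw [cn_eq]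
  refine ⟨?_, ?_, ?_, ?_⟩ <;> nlinarith

private theorem mono_e {k1 k2 x y : ℝ} (h1 : 0 ≤ k1) (h2 : 0 ≤ 10000 * k1 + 10312 * k2)
    (hx : 0 ≤ x) (hxy : x ≤ y) (hy : y ≤ 515584 / 1000000) :
    k1 * x + k2 * x ^ 2 ≤ k1 * y + k2 * y ^ 2 := by
  have h3 : 0 ≤ k1 + k2 * (x + y) := by
    rcases le_or_gt 0 k2 with h | h
    · have : 0 ≤ x + y := by linarith
      positivity
    · nlinarith
  nlinarith [mul_nonneg (sub_nonneg.2 hxy) h3]

theorem ef_spec (hk : k < 19) (h1 : cn k ≤ c) (h2 : c ≤ cn (k + 1)) {s : Sd}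
    (hs : okS s = true) {j : ℕ} (hj : j ≤ 64) :
    10 ^ 50 * eR s ((1 - c ^ 2) * sin (j * (π / 64)) ^ 2) ≤
      ef s.k1 s.k2 (xx k j s.inc) := by
  obtain ⟨q0, q1, q2, q3⟩ := slab_sq hk h1 h2
  obtain ⟨b1, b2⟩ := sin_bd hj
  have hL0 : (0 : ℝ) ≤ gt tSL (idx j) := by unfold gt; push_cast; positivity
  have hU1 : (gt tSU (idx j) : ℝ) ≤ 10 ^ 9 := by
    have q : ∀ k < 33, gt tSU k ≤ 10 ^ 9 := by decide +kernel
    exact_mod_cast q _ (sin_sym hj).2
  set S : ℝ := sin (j * (π / 64)) with hS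
  set L : ℝ := ((gt tSL (idx j) : ℤ) : ℝ) with hL
  set U : ℝ := ((gt tSU (idx j) : ℤ) : ℝ) with hU
  have hS0 : 0 ≤ S := by
    have : 0 ≤ 10 ^ 9 * S := hL0.trans b1
    nlinarith
  have hSS : 0 ≤ S ^ 2 := sq_nonneg S
  have c1 : L ^ 2 ≤ 10 ^ 18 * S ^ 2 := by nlinarith
  have c2 : 10 ^ 18 * S ^ 2 ≤ U ^ 2 := by nlinarith
  have c3 : U ^ 2 ≤ 10 ^ 18 := by nlinarith
  have hy0 : 0 ≤ (1 - c ^ 2) * S ^ 2 := mul_nonneg (by nlinarith) hSS
  unfold eR ef xx
  unfold okS at hs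
  cases hb : s.inc with
  | true =>
    rw [hb, cond_true] at hs
    obtain ⟨g1, g2⟩ := of_decide_eq_true hs
    have g1' : (0 : ℝ) ≤ s.k1 := by exact_mod_cast g1
    have g2' : (0 : ℝ) ≤ 10000 * s.k1 + 10312 * s.k2 := by exact_mod_cast g2
    rw [cond_true]
    push_cast
    rw [← hU]
    have hx : (1 - c ^ 2) * S ^ 2 ≤ (1000000 - (gt tC k : ℝ) ^ 2) * U ^ 2 / 10 ^ 24 := by
      rw [le_div_iff₀ (by positivity)]
      calc (1 - c ^ 2) * S ^ 2 * 10 ^ 24 = (1000000 * (1 - c ^ 2)) * (10 ^ 18 * S ^ 2) := by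
            ring
        _ ≤ _ := mul_le_mul q2 c2 (by positivity) (by linarith)
    have hx2 : (1000000 - (gt tC k : ℝ) ^ 2) * U ^ 2 / 10 ^ 24 ≤ 515584 / 1000000 := by
      rw [div_le_iff₀ (by positivity)]
      calc (1000000 - (gt tC k : ℝ) ^ 2) * U ^ 2 ≤ 515584 * 10 ^ 18 :=
            mul_le_mul q3 c3 (by positivity) (by norm_num)
        _ = _ := by norm_num
    have := mono_e g1' g2' hy0 hx hx2
    set y := (1 - c ^ 2) * S ^ 2
    set X := (1000000 - (gt tC k : ℝ) ^ 2) * U ^ 2 with hX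
    calc 10 ^ 50 * ((s.k1 : ℝ) / 100 * y + s.k2 / 100 * y ^ 2) =
        10 ^ 48 * (s.k1 * y + s.k2 * y ^ 2) := by ring
      _ ≤ 10 ^ 48 * (s.k1 * (X / 10 ^ 24) + s.k2 * (X / 10 ^ 24) ^ 2) :=
          mul_le_mul_of_nonneg_left this (by positivity)
      _ = _ := by ring
  | false =>
    rw [hb, cond_false] at hs
    obtain ⟨g1, g2⟩ := of_decide_eq_true hs
    have g1' : (0 : ℝ) ≤ -s.k1 := by
      have : (s.k1 : ℝ) ≤ 0 := by exact_mod_cast g1
      linarith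
    have g2' : (0 : ℝ) ≤ 10000 * -s.k1 + 10312 * -s.k2 := by
      have : (10000 * s.k1 + 10312 * s.k2 : ℝ) ≤ 0 := by exact_mod_cast g2
      linarith
    rw [cond_false]
    push_cast
    rw [← hL]
    have hx : (1000000 - (gt tC (k + 1) : ℝ) ^ 2) * L ^ 2 / 10 ^ 24 ≤ (1 - c ^ 2) * S ^ 2 := by
      rw [div_le_iff₀ (by positivity)]
      calc _ ≤ (1000000 * (1 - c ^ 2)) * (10 ^ 18 * S ^ 2) :=
            mul_le_mul q1 c1 (by positivity) (by linarith)
        _ = (1 - c ^ 2) * S ^ 2 * 10 ^ 24 := by ring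
    have hx0 : 0 ≤ (1000000 - (gt tC (k + 1) : ℝ) ^ 2) * L ^ 2 / 10 ^ 24 := by positivity
    have hx2 : (1 - c ^ 2) * S ^ 2 ≤ 515584 / 1000000 := by
      have : S ^ 2 ≤ 1 := by nlinarith
      nlinarith
    have := mono_e g1' g2' hx0 hx hx2
    set y := (1 - c ^ 2) * S ^ 2
    set X := (1000000 - (gt tC (k + 1) : ℝ) ^ 2) * L ^ 2 with hX
    calc 10 ^ 50 * ((s.k1 : ℝ) / 100 * y + s.k2 / 100 * y ^ 2) =
        10 ^ 48 * -(-s.k1 * y + -s.k2 * y ^ 2) := by ring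
      _ ≤ 10 ^ 48 * -(-s.k1 * (X / 10 ^ 24) + -s.k2 * (X / 10 ^ 24) ^ 2) :=
          mul_le_mul_of_nonneg_left (neg_le_neg this) (by positivity)
      _ = _ := by ring

theorem fF_spec (hk : k < 19) (h1 : cn k ≤ c) (h2 : c ≤ cn (k + 1)) {s : Sd}
    (hs : okS s = true) {j : ℕ} (hj : j ≤ 64) :
    10 ^ 50 * (s.W / 100 * ph c (j * (π / 64)) +
      eR s ((1 - c ^ 2) * sin (j * (π / 64)) ^ 2)) + 10 ^ 52 ≤ (fF s k j : ℝ) ∧
    10 ^ 50 * (-(s.W / 100) * ph c (j * (π / 64)) +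
      eR s ((1 - c ^ 2) * sin (j * (π / 64)) ^ 2)) + 10 ^ 52 ≤ (fG s k j : ℝ) := by
  obtain ⟨a1, a2⟩ := pU_spec hk h1 h2 hj
  have a3 := ef_spec hk h1 h2 hs hj
  have hW : (0 : ℝ) ≤ s.W := by positivity
  unfold fF fG
  have t : ∀ x : ℤ, (x : ℝ) ≤ ((x.toNat : ℕ) : ℝ) := by
    intro x
    have := Int.self_le_toNat x
    exact_mod_cast this
  constructor
  · refine le_trans ?_ (t _)
    push_cast
    have := mul_le_mul_of_nonneg_left a1 hW
    linarith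
  · refine le_trans ?_ (t _)
    push_cast
    have := mul_le_mul_of_nonneg_left a2 hW
    linarith

end slab

/-- the convexity constant of a side -/
noncomputable def Kr (s : Sd) (c : ℝ) : ℝ :=
  s.W / 100 * (9 / 20) + |(s.k1 : ℝ) / 100 * (1 - c ^ 2)| +
    2 * |(s.k2 : ℝ) / 100 * (1 - c ^ 2) ^ 2|

theorem Kr_nonneg (s : Sd) (c : ℝ) : 0 ≤ Kr s c := by
  unfold Kr
  positivity

theorem Kr_le {s : Sd} {c : ℝ} (hc : 87 / 125 ≤ c) (hc1 : c ≤ 1) :
    Kr s c ≤ (Kz s : ℝ) / 10 ^ 14 := by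
  have h0 : 0 ≤ 1 - c ^ 2 := by nlinarith
  have h1 : 1 - c ^ 2 ≤ 515584 / 1000000 := by nlinarith
  have h2 : (1 - c ^ 2) ^ 2 ≤ (515584 / 1000000) ^ 2 := by nlinarith
  have h3 : 0 ≤ (1 - c ^ 2) ^ 2 := sq_nonneg _
  unfold Kr Kz
  rw [abs_mul ((s.k1 : ℝ) / 100), abs_mul ((s.k2 : ℝ) / 100), abs_of_nonneg h0,
    abs_of_nonneg h3, abs_div (s.k1 : ℝ), abs_div (s.k2 : ℝ),
    abs_of_pos (by norm_num : (0 : ℝ) < 100)]
  push_cast
  have e1 := mul_le_mul_of_nonneg_left h1 (by positivity : 0 ≤ |(s.k1 : ℝ)| / 100)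
  have e2 := mul_le_mul_of_nonneg_left h2 (by positivity : 0 ≤ |(s.k2 : ℝ)| / 100)
  linarith

theorem conv_side {c e : ℝ} (hc : 87 / 125 ≤ c) (hc1 : c ≤ 1) (he : |e| ≤ 1) (s : Sd) :
    ConvexOn ℝ (Set.Icc 0 π) (fun z => (e * (s.W / 100) * ph c z +
      eR s ((1 - c ^ 2) * sin z ^ 2)) + Kr s c * z ^ 2) := by
  have h1 := (conv_ph hc hc1 he).smul (by positivity : (0 : ℝ) ≤ s.W / 100)
  have h2 := conv_sin2 ((s.k1 : ℝ) / 100 * (1 - c ^ 2))
  have h3 := conv_sin4 ((s.k2 : ℝ) / 100 * (1 - c ^ 2) ^ 2)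
  refine ((h1.add h2).add h3).congr fun z _ => ?_
  simp only [Pi.add_apply, smul_eq_mul, Kr, eR]
  ring

private theorem exists_slab {c : ℝ} (hc : cn 0 ≤ c) :
    ∀ n : ℕ, 0 < n → c ≤ cn n → ∃ k < n, cn k ≤ c ∧ c ≤ cn (k + 1) := by
  intro n
  induction n with
  | zero => intro h; omega
  | succ n ih =>
    intro _ hn
    rcases le_or_gt (cn n) c with h | h
    · exact ⟨n, by omega, h, hn⟩
    · rcases Nat.eq_zero_or_pos n with h0 | h0
      · subst h0; exact absurd hc (not_le.2 h)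
      · obtain ⟨k, hk, hk'⟩ := ih h0 h.le
        exact ⟨k, by omega, hk'⟩

theorem eng (s0 s1 s2 : Sd) (Mf : ℤ) (Ml : ℕ) (h : full s0 s1 s2 Mf Ml = true) {c a b d : ℝ}
    (hc : 87 / 125 ≤ c) (hc1 : c ≤ 1) (ha : 0 ≤ a) (hb : 0 ≤ b) (hd : 0 ≤ d)
    (hs : a + b + d = π) :
    (s0.W : ℝ) / 100 * ph c a + (s1.W : ℝ) / 100 * ph c b + (s2.W : ℝ) / 100 * ph c d +
      (eR s0 ((1 - c ^ 2) * sin a ^ 2) + eR s1 ((1 - c ^ 2) * sin b ^ 2) +
        eR s2 ((1 - c ^ 2) * sin d ^ 2)) ≤ Mf / 100000 := by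
  have hp := pi_pos
  have hc0 : 0 < c := by linarith
  unfold full at h
  simp only [Bool.and_eq_true, List.all_eq_true, List.mem_range] at h
  obtain ⟨⟨⟨⟨o0, o1⟩, o2⟩, hl⟩, hk⟩ := h
  have hl := of_decide_eq_true hl
  have n0 : cn 0 ≤ c := by
    refine le_trans (le_of_eq ?_) hc
    norm_num [cn, gt, tC]
  have n1 : c ≤ cn 19 := by
    refine le_trans hc1 (le_of_eq ?_)
    norm_num [cn, gt, tC]
  obtain ⟨k, hk19, k1, k2⟩ := exists_slab n0 19 (by norm_num) n1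
  have hnode := hk k hk19
  have hl' : (Ml : ℝ) ≤ 3 * 10 ^ 52 + Mf * 10 ^ 45 -
      ((Kz s0 : ℝ) + Kz s1 + Kz s2) * (603 * 10 ^ 30) := by
    have := (Int.cast_le (R := ℝ)).2 hl
    unfold lim at this
    push_cast at this
    linarith
  have hg := grid (f₀ := fun z => 1 * (s0.W / 100) * ph c z + eR s0 ((1 - c ^ 2) * sin z ^ 2))
    (f₁ := fun z => 1 * (s1.W / 100) * ph c z + eR s1 ((1 - c ^ 2) * sin z ^ 2))
    (g := fun z => -1 * (s2.W / 100) * ph c z + eR s2 ((1 - c ^ 2) * sin z ^ 2))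
    (p := π) (d := π / 64) (N := 64)
    (M := (Mf : ℝ) / 100000 - ((Kz s0 : ℝ) + Kz s1 + Kz s2) / 10 ^ 14 * (603 / 10 ^ 6))
    (Kr_nonneg s0 c) (Kr_nonneg s1 c) (Kr_nonneg s2 c) (by positivity)
    (by push_cast; ring) (conv_side hc hc1 (by norm_num) s0)
    (conv_side hc hc1 (by norm_num) s1) (conv_side hc hc1 (by norm_num) s2) ?_ ha hb
    (by linarith)
  · have hab : a + b = π - d := by linarith
    rw [hab, ph_pi_sub hc0 hd (by linarith), sin_pi_sub] at hg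
    have hpi : (π / 64) ^ 2 / 4 ≤ 603 / 10 ^ 6 := by
      have := Real.pi_lt_d6
      nlinarith
    have e0 := Kr_le (s := s0) hc hc1
    have e1 := Kr_le (s := s1) hc hc1
    have e2 := Kr_le (s := s2) hc hc1
    have f0 := Kr_nonneg s0 c
    have f1 := Kr_nonneg s1 c
    have f2 := Kr_nonneg s2 c
    have e3 : (Kr s0 c + Kr s1 c + Kr s2 c) * ((π / 64) ^ 2 / 4) ≤
        ((Kz s0 : ℝ) + Kz s1 + Kz s2) / 10 ^ 14 * (603 / 10 ^ 6) :=
      mul_le_mul (by linarith) hpi (by positivity) (by linarith)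
    linarith
  · intro i j hij
    have g0 := (fF_spec hk19 k1 k2 o0 (j := i) (by omega)).1
    have g1 := (fF_spec hk19 k1 k2 o1 (j := j) (by omega)).1
    have g2 := (fF_spec hk19 k1 k2 o2 (j := i + j) hij).2
    have g3 : ((fF s0 k i : ℝ) + fF s1 k j + fG s2 k (i + j)) ≤ Ml := by
      exact_mod_cast chk1_spec hnode hij
    linarith

end Pool.Agent.C9
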